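import Pool.Agent.H70.TIE.Base

/-!
# Project TIE, module S1: main term and error of the weighted sum of `fhat`
-/

set_option autoImplicit false

namespace TIE
open Finset MTA

/-- the exponential sum over one class -/
noncomputable def Ga (q a : ℕ) (x t : ℝ) : ℂ :=
  ∑ n ∈ (Icc 1 ⌊9 * x⌋₊).filter (fun n => n ≡ a [MOD q]), (W x n : ℂ) * ee (n * t)

theorem fhat_eq (q a b : ℕ) (x t : ℝ) : fhat q a b x t = Ga q a x t - Ga q b x t := by
  unfold fhat Ga
  rw [sum_filter, sum_filter, ← sum_sub_distrib]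
  refine sum_congr rfl fun n _ => ?_
  rw [fw_eqB]
  by_cases h1 : n ≡ a [MOD q] <;> by_cases h2 : n ≡ b [MOD q] <;> simp [h1, h2]

/-- the sum over the weights in a progression, split modulo `r` -/
theorem Ga_split {x : ℝ} (hx : 3 ≤ x) {q a r : ℕ} (hq : 1 ≤ q) (ha : a.Coprime q) (hr : 1 ≤ r)
    (hrq : r.Coprime q) (hrx : (r : ℝ) ≤ x / 8) :
    ∃ c : ℕ → ℕ, (∀ u, u ∈ RR r → c u < q * r ∧ (c u).Coprime (q * r)) ∧ ∀ s : ℕ,
      Ga q a x (s / r + 1 / q) =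
        ee (a / q) * ∑ u ∈ RR r, ee (u * (s / r)) * (THa 1 x (q * r) (c u) : ℂ) := by
  refine ⟨fun u => (Nat.chineseRemainder hrq.symm a u : ℕ), fun u hu => ?_, fun s => ?_⟩
  · have h1 := (Nat.chineseRemainder hrq.symm a u).2
    refine ⟨Nat.chineseRemainder_lt_mul hrq.symm a u (by omega) (by omega), ?_⟩
    rw [RR, mem_filter] at hu
    refine Nat.Coprime.mul_right ?_ ?_
    · rw [Nat.Coprime, h1.1.gcd_eq]
      exact ha
    · rw [Nat.Coprime, h1.2.gcd_eq]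
      exact hu.2
  · unfold Ga
    have e1 : ∀ n ∈ (Icc 1 ⌊9 * x⌋₊).filter (fun n => n ≡ a [MOD q]),
        (W x n : ℂ) * ee (n * (s / r + 1 / q)) =
          ee (a / q) * ((W x n : ℂ) * ee (n * (s / r))) := by
      intro n hn
      rw [mem_filter] at hn
      have h1 : ee (n * (1 / q)) = ee (a * (1 / q)) := by
        have := ee_modEq hq hn.2 1
        simpa using this
      rw [mul_add, ee_addB, h1, mul_one_div]
      ring
    rw [sum_congr rfl e1, ← mul_sum]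
    congr 1
    -- group by the residue modulo `r`
    have hmap : ∀ n ∈ (Icc 1 ⌊9 * x⌋₊).filter (fun n => n ≡ a [MOD q]), n % r ∈ range r := by
      intro n _
      rw [mem_range]
      exact Nat.mod_lt _ (by omega)
    rw [← sum_fiberwise_of_maps_to hmap]
    have hRR : RR r ⊆ range r := filter_subset _ _
    symm
    rw [← sum_subset hRR (f := fun u => ∑ n ∈ ((Icc 1 ⌊9 * x⌋₊).filter
      (fun n => n ≡ a [MOD q])).filter (fun n => n % r = u), (W x n : ℂ) * ee (n * (s / r)))]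
    · refine sum_congr rfl fun u hu => ?_
      rw [RR, mem_filter, mem_range] at hu
      rw [THa_eq hx, Complex.ofReal_sum, mul_sum, filter_filter]
      have h2 : (Icc 1 ⌊9 * x⌋₊).filter
          (fun n => n ≡ (Nat.chineseRemainder hrq.symm a u : ℕ) [MOD q * r]) =
          (Icc 1 ⌊9 * x⌋₊).filter (fun n => n ≡ a [MOD q] ∧ n % r = u) := by
        refine filter_congr fun n _ => ?_
        have h1 := (Nat.chineseRemainder hrq.symm a u).2
        rw [← Nat.modEq_and_modEq_iff_modEq_mul hrq.symm]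
        have h3 : n % r = u ↔ n ≡ u [MOD r] := by
          rw [Nat.ModEq, Nat.mod_eq_of_lt hu.1]
        rw [h3]
        exact and_congr ⟨fun h => h.trans h1.1, fun h => h.trans h1.1.symm⟩
          ⟨fun h => h.trans h1.2, fun h => h.trans h1.2.symm⟩
      rw [h2]
      refine sum_congr rfl fun n hn => ?_
      rw [mem_filter] at hn
      have h3 : n ≡ u [MOD r] := by
        rw [Nat.ModEq, hn.2.2, Nat.mod_eq_of_lt hu.1]
      rw [ee_modEq hr h3, mul_comm]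
    · intro u hu hu2
      refine sum_eq_zero fun n hn => ?_
      rw [mem_filter] at hn
      have hcop : ¬ n.Coprime r := by
        intro h
        apply hu2
        rw [RR, mem_filter]
        refine ⟨hu, ?_⟩
        rw [Nat.Coprime, ← hn.2, ← Nat.gcd_rec, Nat.gcd_comm]
        exact h
      have h0 : W x n = 0 := by
        by_cases hp : n.Prime
        · have h4 : n ∣ r := by
            by_contra h
            exact hcop ((Nat.Prime.coprime_iff_not_dvd hp).2 h)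
          refine W_small (by linarith) (le_trans ?_ hrx)
          exact_mod_cast Nat.le_of_dvd (by omega) h4
        · unfold W
          rw [if_neg hp]
      rw [h0]
      simp

/-- Fourier transform of `‖Dh‖²` over the fractions with denominator `r` -/
noncomputable def Vu (q r h : ℕ) (u : ℕ) : ℂ :=
  ∑ s ∈ RR r, ((‖Dh h (s / r + 1 / q)‖ ^ 2 : ℝ) : ℂ) * ee (u * (s / r))

theorem norm_Vu_le (q r h u : ℕ) :
    ‖Vu q r h u‖ ≤ ∑ j ∈ Icc 1 h, ∑ k ∈ Icc 1 h, ‖cr r (u + ((j : ℤ) - k))‖ := by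
  have h1 : Vu q r h u = ∑ j ∈ Icc 1 h, ∑ k ∈ Icc 1 h,
      ee (((j : ℝ) - k) * (1 / q)) * cr r (u + ((j : ℤ) - k)) := by
    unfold Vu
    simp only [normSq_Dh, sum_mul]
    rw [sum_comm]
    refine sum_congr rfl fun j _ => ?_
    rw [sum_comm]
    refine sum_congr rfl fun k _ => ?_
    unfold cr
    rw [mul_sum]
    refine sum_congr rfl fun s _ => ?_
    rw [← ee_addB, ← ee_addB]
    congr 1
    push_cast
    ring
  rw [h1]
  refine (norm_sum_le _ _).trans (sum_le_sum fun j _ => (norm_sum_le _ _).trans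
    (sum_le_sum fun k _ => ?_))
  rw [norm_mul, norm_ee, one_mul]

theorem sum_Vu_le (hR : S_RSUM) (q r h : ℕ) (hr : 1 ≤ r) :
    ∑ u ∈ RR r, ‖Vu q r h u‖ ≤ (h : ℝ) ^ 2 * (r * r.divisors.card) := by
  calc ∑ u ∈ RR r, ‖Vu q r h u‖ ≤ ∑ u ∈ range r, ‖Vu q r h u‖ :=
        sum_le_sum_of_subset_of_nonneg (filter_subset _ _) fun _ _ _ => norm_nonneg _
    _ ≤ ∑ u ∈ range r, ∑ j ∈ Icc 1 h, ∑ k ∈ Icc 1 h, ‖cr r (u + ((j : ℤ) - k))‖ :=
        sum_le_sum fun u _ => norm_Vu_le q r h u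
    _ = ∑ j ∈ Icc 1 h, ∑ k ∈ Icc 1 h, ∑ u ∈ range r, ‖cr r (u + ((j : ℤ) - k))‖ := by
        rw [sum_comm]
        refine sum_congr rfl fun j _ => ?_
        rw [sum_comm]
    _ ≤ ∑ j ∈ Icc 1 h, ∑ k ∈ Icc 1 h, ((r : ℝ) * r.divisors.card) :=
        sum_le_sum fun j _ => sum_le_sum fun k _ => hR r _ hr
    _ = (h : ℝ) ^ 2 * (r * r.divisors.card) := by
        simp only [sum_const, Nat.card_Icc, Nat.add_sub_cancel, nsmul_eq_mul]
        ring

/-- a Ramanujan sum at a reduced residue -/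
theorem cr_coprime (hR : S_RAM) {r s : ℕ} (hr : 1 ≤ r) (hs : s.Coprime r) :
    cr r s = ((ArithmeticFunction.moebius r : ℤ) : ℂ) := by
  rw [hR r s hr, sum_eq_single_of_mem 1 (Nat.one_mem_divisors.2 (by omega))]
  · simp
  · intro d hd hd1
    rw [if_neg]
    intro h
    have h2 : d ∣ s := by exact_mod_cast h
    exact hd1 (Nat.eq_one_of_dvd_coprimes hs h2 (Nat.dvd_of_mem_divisors hd))

theorem S1_class (hR1 : S_RAM) (hR2 : S_RSUM) {x : ℝ} (hx : 3 ≤ x) {q a r : ℕ} (h : ℕ) (hq : 1 ≤ q)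
    (ha : a.Coprime q) (hr : 1 ≤ r) (hrq : r.Coprime q) (hrx : (r : ℝ) ≤ x / 8) :
    ‖(∑ s ∈ RR r, ((‖Dh h (s / r + 1 / q)‖ ^ 2 : ℝ) : ℂ) * Ga q a x (s / r + 1 / q)) -
      ee (a / q) * ((TH 1 x * (ArithmeticFunction.moebius r : ℤ) /
        (q.totient * r.totient) * ∑ s ∈ RR r, ‖Dh h (s / r + 1 / q)‖ ^ 2 : ℝ) : ℂ)‖ ≤
      (h : ℝ) ^ 2 * (r * r.divisors.card) * Emax 1 x (q * r) := by
  obtain ⟨c, hc, hG⟩ := Ga_split hx hq ha hr hrq hrx
  have hφ : (((q * r).totient : ℕ) : ℝ) = (q.totient : ℝ) * r.totient := by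
    rw [Nat.totient_mul hrq.symm]
    push_cast
    ring
  have hTHa : ∀ u, THa 1 x (q * r) (c u) = TH 1 x / (q.totient * r.totient) + EE 1 x (q * r) (c u) := by
    intro u
    unfold EE
    rw [hφ]
    ring
  -- main term
  have hmain : ∀ s ∈ RR r, ∑ u ∈ RR r, ee (u * (s / r)) = ((ArithmeticFunction.moebius r : ℤ) : ℂ) := by
    intro s hs
    rw [RR, mem_filter] at hs
    rw [← cr_coprime hR1 hr hs.2]
    unfold cr
    refine sum_congr rfl fun u _ => ?_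
    congr 1
    push_cast
    ring
  have e1 : (∑ s ∈ RR r, ((‖Dh h (s / r + 1 / q)‖ ^ 2 : ℝ) : ℂ) * Ga q a x (s / r + 1 / q)) -
      ee (a / q) * ((TH 1 x * (ArithmeticFunction.moebius r : ℤ) /
        (q.totient * r.totient) * ∑ s ∈ RR r, ‖Dh h (s / r + 1 / q)‖ ^ 2 : ℝ) : ℂ) =
      ee (a / q) * ∑ u ∈ RR r, (EE 1 x (q * r) (c u) : ℂ) * Vu q r h u := by
    have e2 : ∀ s ∈ RR r, ((‖Dh h (s / r + 1 / q)‖ ^ 2 : ℝ) : ℂ) * Ga q a x (s / r + 1 / q) =
        ee (a / q) * (((TH 1 x / (q.totient * r.totient) : ℝ) : ℂ) *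
          ((ArithmeticFunction.moebius r : ℤ) : ℂ) * ((‖Dh h (s / r + 1 / q)‖ ^ 2 : ℝ) : ℂ)) +
        ee (a / q) * ∑ u ∈ RR r, (EE 1 x (q * r) (c u) : ℂ) *
          (((‖Dh h (s / r + 1 / q)‖ ^ 2 : ℝ) : ℂ) * ee (u * (s / r))) := by
      intro s hs
      rw [hG s]
      have e3 : ∑ u ∈ RR r, ee (u * (s / r)) * (THa 1 x (q * r) (c u) : ℂ) =
          ((TH 1 x / (q.totient * r.totient) : ℝ) : ℂ) * ((ArithmeticFunction.moebius r : ℤ) : ℂ) +
          ∑ u ∈ RR r, ee (u * (s / r)) * (EE 1 x (q * r) (c u) : ℂ) := by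
        rw [← hmain s hs, mul_sum, ← sum_add_distrib]
        refine sum_congr rfl fun u _ => ?_
        rw [hTHa u, Complex.ofReal_add]
        ring
      rw [e3, mul_add, mul_add, mul_sum, mul_sum, mul_sum]
      congr 1
      · ring
      · refine sum_congr rfl fun u _ => ?_
        ring
    rw [sum_congr rfl e2, sum_add_distrib, ← mul_sum, ← mul_sum, ← mul_sum, sum_comm]
    have e4 : ∑ u ∈ RR r, ∑ s ∈ RR r, (EE 1 x (q * r) (c u) : ℂ) *
          (((‖Dh h (s / r + 1 / q)‖ ^ 2 : ℝ) : ℂ) * ee (u * (s / r))) =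
        ∑ u ∈ RR r, (EE 1 x (q * r) (c u) : ℂ) * Vu q r h u := by
      refine sum_congr rfl fun u _ => ?_
      unfold Vu
      rw [mul_sum]
    rw [e4]
    have e5 : ((TH 1 x * (ArithmeticFunction.moebius r : ℤ) /
        (q.totient * r.totient) * ∑ s ∈ RR r, ‖Dh h (s / r + 1 / q)‖ ^ 2 : ℝ) : ℂ) =
        ((TH 1 x / (q.totient * r.totient) : ℝ) : ℂ) * ((ArithmeticFunction.moebius r : ℤ) : ℂ) *
          ∑ s ∈ RR r, ((‖Dh h (s / r + 1 / q)‖ ^ 2 : ℝ) : ℂ) := by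
      push_cast
      ring
    rw [e5]
    ring
  rw [e1, norm_mul, norm_ee, one_mul]
  have h2 : ∀ u ∈ RR r, ‖(EE 1 x (q * r) (c u) : ℂ) * Vu q r h u‖ ≤
      Emax 1 x (q * r) * ‖Vu q r h u‖ := by
    intro u hu
    rw [norm_mul, Complex.norm_real, Real.norm_eq_abs]
    exact mul_le_mul_of_nonneg_right (le_Emax 1 x _ _ (hc u hu).1 (hc u hu).2) (norm_nonneg _)
  calc ‖∑ u ∈ RR r, (EE 1 x (q * r) (c u) : ℂ) * Vu q r h u‖ ≤
        ∑ u ∈ RR r, Emax 1 x (q * r) * ‖Vu q r h u‖ := (norm_sum_le _ _).trans (sum_le_sum h2)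
    _ = Emax 1 x (q * r) * ∑ u ∈ RR r, ‖Vu q r h u‖ := by rw [mul_sum]
    _ ≤ Emax 1 x (q * r) * ((h : ℝ) ^ 2 * (r * r.divisors.card)) :=
        mul_le_mul_of_nonneg_left (sum_Vu_le hR2 q r h hr) (Emax_nonneg _ _ _)
    _ = _ := by ring

theorem S1 (hR1 : S_RAM) (hR2 : S_RSUM) : S_S1 := by
  have hev : ∀ᶠ x : ℝ in Filter.atTop, 3 ≤ x ∧ x ^ (1 / 6 : ℝ) ≤ x / 8 := by
    filter_upwards [(tendsto_rpow_atTop (show (0 : ℝ) < 5 / 6 by norm_num)).eventually_ge_atTop 8,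
      Filter.eventually_ge_atTop (3 : ℝ)] with x h2 h3
    refine ⟨h3, ?_⟩
    have h4 : x = x ^ (1 / 6 : ℝ) * x ^ (5 / 6 : ℝ) := by
      rw [← Real.rpow_add (by linarith)]
      norm_num
    have h5 : 0 ≤ x ^ (1 / 6 : ℝ) := Real.rpow_nonneg (by linarith) _
    nlinarith
  obtain ⟨x0, hx0⟩ := Filter.eventually_atTop.1 hev
  refine ⟨x0, fun x hx q a b r h hq ha hb hsq hrq hrx => ?_⟩
  obtain ⟨hx3, hx8⟩ := hx0 x hx
  have hr : 1 ≤ r := Nat.one_le_iff_ne_zero.2 hsq.ne_zero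
  have h1 := S1_class hR1 hR2 hx3 h hq ha hr hrq (hrx.trans hx8)
  have h2 := S1_class hR1 hR2 hx3 h hq hb hr hrq (hrx.trans hx8)
  have e : (∑ s ∈ RR r, ((‖Dh h (s / r + 1 / q)‖ ^ 2 : ℝ) : ℂ) * fhat q a b x (s / r + 1 / q)) =
      (∑ s ∈ RR r, ((‖Dh h (s / r + 1 / q)‖ ^ 2 : ℝ) : ℂ) * Ga q a x (s / r + 1 / q)) -
      ∑ s ∈ RR r, ((‖Dh h (s / r + 1 / q)‖ ^ 2 : ℝ) : ℂ) * Ga q b x (s / r + 1 / q) := by
    rw [← sum_sub_distrib]
    refine sum_congr rfl fun s _ => ?_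
    rw [fhat_eq]
    ring
  rw [e, sub_mul]
  have e2 : ∀ A B C D : ℂ, A - B - (C - D) = (A - C) - (B - D) := by
    intro A B C D
    ring
  rw [e2]
  refine (norm_sub_le _ _).trans ?_
  linarith

end TIE
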