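import Pool.Agent.H70.TIE.Stmts
import Pool.Agent.H28.MTA.SW

/-!
# Project TIE, module SWx: Siegel-Walfisz for one character

Copy of `Pool.Agent.H28.MTA.SW` with a hypothesis on the one character instead of `Good`.
-/

set_option autoImplicit false

namespace TIE
open Finset MeasureTheory Filter MTA

theorem SWx (h1 : S_LBDx) (h2 : MTA.S_FJ) (h3 : MTA.S_SWF) : S_SWx := by
  intro A B c hc
  set k : ℕ := 4 * A + 7 with hk
  obtain ⟨cL, xL, hcL, hL⟩ := h1 B
  obtain ⟨CF, hCF, hF⟩ := h2 k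
  obtain ⟨CG, hCG, hG⟩ := h3 k
  obtain ⟨CM, hCM, hM⟩ := sw_log_pow (10 * (k + 1))
  set J : ℝ := ∫ u : ℝ, (1 + u ^ 2) ^ (-(3 / 4) : ℝ) with hJ
  have hJ0 : 0 ≤ J := integral_nonneg fun u => by positivity
  set c' : ℝ := min cL 1 with hc'
  have hc'0 : 0 < c' := lt_min hcL one_pos
  set K0 : ℝ := Real.exp 2 * c * CG * CF * (1 / c') ^ (k + 1) * CM * J with hK0
  have hK00 : 0 ≤ K0 := by positivity
  have hc0 : (0 : ℝ) < c := by exact_mod_cast hc
  have hc1 : (1 : ℝ) ≤ c := by exact_mod_cast hc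
  -- eventual conditions
  have hev : ∀ᶠ y : ℝ in atTop, 4 ≤ y ∧ 1 ≤ Real.log y ∧ Real.log c ≤ y ∧
      K0 * (B * Real.log y + 1) ^ (10 * (k + 1)) ≤ y := by
    have e1 : ∀ᶠ y : ℝ in atTop, 4 ≤ y := eventually_ge_atTop 4
    have e2 : ∀ᶠ y : ℝ in atTop, 1 ≤ Real.log y :=
      Real.tendsto_log_atTop.eventually (eventually_ge_atTop 1)
    have e3 : ∀ᶠ y : ℝ in atTop, Real.log c ≤ y := eventually_ge_atTop _
    have e4 := (Real.isLittleO_pow_log_id_atTop (n := 10 * (k + 1))).bound
      (show (0 : ℝ) < 1 / ((K0 + 1) * (B + 1) ^ (10 * (k + 1))) by positivity)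
    filter_upwards [e1, e2, e3, e4] with y y1 y2 y3 y4
    refine ⟨y1, y2, y3, ?_⟩
    rw [norm_pow, Real.norm_eq_abs, abs_of_nonneg (by linarith), id, Real.norm_eq_abs,
      abs_of_nonneg (by linarith), div_mul_eq_mul_div, one_mul, le_div_iff₀ (by positivity)] at y4
    have y5 : (B : ℝ) * Real.log y + 1 ≤ (B + 1) * Real.log y := by linarith
    have y6 : ((B : ℝ) * Real.log y + 1) ^ (10 * (k + 1)) ≤
        ((B + 1) * Real.log y) ^ (10 * (k + 1)) := pow_le_pow_left₀ (by positivity) y5 _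
    calc K0 * (B * Real.log y + 1) ^ (10 * (k + 1))
        ≤ (K0 + 1) * ((B + 1) * Real.log y) ^ (10 * (k + 1)) :=
          mul_le_mul (by linarith) y6 (by positivity) (by positivity)
      _ = Real.log y ^ (10 * (k + 1)) * ((K0 + 1) * (B + 1) ^ (10 * (k + 1))) := by
          rw [mul_pow]; ring
      _ ≤ y := y4
  obtain ⟨x1, hx1⟩ := Filter.eventually_atTop.1
    (((Real.tendsto_log_atTop.eventually hev).and (eventually_ge_atTop xL)).and
      (eventually_ge_atTop 1))
  refine ⟨x1, fun x hx r hr hrB χ hprim hχ1 hgood => ?_⟩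
  obtain ⟨⟨⟨hy4, hly, hcy, hfin⟩, hxL⟩, hx1'⟩ := hx1 x hx
  set y : ℝ := Real.log x with hy
  have hy0 : 0 < y := by linarith
  have hx0 : 0 < x := by linarith
  set X : ℝ := c * x with hX
  have hX0 : 0 < X := by positivity
  set lam : ℝ := Real.log X with hlam
  have hlamy : lam = Real.log c + y := by rw [hlam, hX, Real.log_mul hc0.ne' hx0.ne']
  have hlc : 0 ≤ Real.log (c : ℝ) := Real.log_nonneg hc1
  have hlam1 : y ≤ lam := by linarith
  have hlam4 : 4 ≤ lam := by linarith
  set σ : ℝ := 1 + 1 / y with hσ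
  have hσ1 : 1 < σ := by
    rw [hσ]
    have : 0 < 1 / y := by positivity
    linarith
  have hσ2 : σ ≤ 2 := by
    rw [hσ]
    have : 1 / y ≤ 1 := by
      rw [div_le_one hy0]; linarith
    linarith
  obtain ⟨g, hgc, hgb, hgΦ⟩ := hG lam σ hlam4 hσ1.le hσ2
  have hgi : Integrable g := sw_int_g hgc hgb
  set Φ : ℝ → ℝ := fun w => rho w * Real.exp (σ * w) / (1 + w / lam) ^ k with hΦ
  have hlam0 : 0 < lam := by linarith
  -- the support
  have hN : ∀ n : ℕ, ⌊8 * X⌋₊ < n → Φ (Real.log n - lam) = 0 := by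
    intro n hn
    have h4 : 8 * X < n := Nat.lt_of_floor_lt hn
    have h5 : Real.log (8 * X) ≤ Real.log n := Real.log_le_log (by positivity) h4.le
    rw [Real.log_mul (by norm_num) hX0.ne'] at h5
    have h6 : (2 : ℝ) ≤ Real.log 8 := by
      rw [show (8 : ℝ) = 2 ^ 3 by norm_num, Real.log_pow]
      have := Real.log_two_gt_d9
      push_cast
      linarith
    have h7 : rho (Real.log n - lam) = 0 := by
      apply rho_zero
      rw [abs_of_nonneg (by linarith)]
      linarith
    rw [hΦ]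
    simp only
    rw [h7]
    simp
  have hrepr := sw_repr χ k σ lam hσ1 g hgi Φ (fun w => hgΦ w) ⌊8 * X⌋₊ hN
  -- the prime sum
  have hpsi : psiR X χ = ((Real.exp (σ * lam) * (lam ^ k)⁻¹ : ℝ) : ℂ) *
      ∑ n ∈ Icc 1 ⌊8 * X⌋₊, swf χ k n * (Real.exp (-(σ * Real.log n)) : ℂ) *
        ((Φ (Real.log n - lam) : ℝ) : ℂ) := by
    unfold psiR
    rw [Finset.mul_sum]
    refine Finset.sum_congr rfl (fun n hn => ?_)
    rw [Finset.mem_Icc] at hn
    have hn0 : (0 : ℝ) < n := by exact_mod_cast hn.1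
    have hlog : Real.log (n / X) = Real.log n - lam := by
      rw [Real.log_div hn0.ne' hX0.ne']
    rw [hlog]
    by_cases hw : rho (Real.log n - lam) = 0
    · rw [hΦ]
      simp only
      rw [hw]
      simp
    · have hw2 : |Real.log n - lam| < 2 := by
        by_contra h
        exact hw (rho_zero (not_lt.1 h))
      have hln : Real.log n ≠ 0 := by
        intro h
        rw [h, zero_sub, abs_neg, abs_of_pos hlam0] at hw2
        linarith
      have e1 : 1 + (Real.log n - lam) / lam = Real.log n / lam := by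
        field_simp
        ring
      have e2 : Φ (Real.log n - lam) = rho (Real.log n - lam) *
          Real.exp (σ * (Real.log n - lam)) / (Real.log n / lam) ^ k := by
        rw [hΦ]
        simp only
        rw [e1]
      have e3 : rho (Real.log n - lam) = Real.exp (σ * lam) * (lam ^ k)⁻¹ *
          (Real.log n ^ k * (Real.exp (-(σ * Real.log n)) * Φ (Real.log n - lam))) := by
        rw [e2, mul_sub, Real.exp_sub, Real.exp_neg, div_pow]
        have := Real.exp_pos (σ * lam)
        have := Real.exp_pos (σ * Real.log n)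
        field_simp
      unfold swf
      have e4 : ((rho (Real.log n - lam) : ℝ) : ℂ) = ((Real.exp (σ * lam) * (lam ^ k)⁻¹ : ℝ) : ℂ) *
          ((Real.log n : ℂ) ^ k * ((Real.exp (-(σ * Real.log n)) : ℂ) *
            ((Φ (Real.log n - lam) : ℝ) : ℂ))) := by
        have := congrArg (fun z : ℝ => (z : ℂ)) e3
        rw [this]
        push_cast
        ring
      rw [e4]
      ring
  rw [hpsi, hrepr, norm_mul, Complex.norm_real, Real.norm_eq_abs, abs_of_pos (by positivity)]
  -- the bound of the integrand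
  set D : ℝ := CG * CF * (1 / c') ^ (k + 1) * CM * (B * Real.log y + 1) ^ (10 * (k + 1)) *
    y ^ (A + 2) with hD
  have hB1 : 1 ≤ (B : ℝ) * Real.log y + 1 := by
    have : 0 ≤ (B : ℝ) * Real.log y := by positivity
    linarith
  have hptw : ∀ u : ℝ, ‖g u * Complex.exp (-(2 * Real.pi * Complex.I * u * lam)) *
      Fj χ k ((σ : ℂ) - 2 * Real.pi * u * Complex.I)‖ ≤ D * (1 + u ^ 2) ^ (-(3 / 4) : ℝ) := by
    intro u
    set t : ℝ := -(2 * Real.pi * u) with ht
    have hs : ((σ : ℂ) - 2 * Real.pi * u * Complex.I) = ((1 + 1 / Real.log x : ℝ) : ℂ) +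
        (t : ℂ) * Complex.I := by
      rw [hσ, ht]
      push_cast
      ring
    have hre : (((1 + 1 / Real.log x : ℝ) : ℂ) + (t : ℂ) * Complex.I).re = σ := by
      simp [hσ, hy]
    have him : (((1 + 1 / Real.log x : ℝ) : ℂ) + (t : ℂ) * Complex.I).im = t := by
      simp
    have hLLpos : ∀ r : ℕ, 1 ≤ r → 1 ≤ LL r t := by
      intro r hr
      unfold LL
      have hr' : (1 : ℝ) ≤ r := by exact_mod_cast hr
      have h3 : Real.exp 1 ≤ r * (|t| + 3) := by
        have := Real.exp_one_lt_d9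
        have := abs_nonneg t
        nlinarith
      calc (1 : ℝ) = Real.log (Real.exp 1) := (Real.log_exp 1).symm
        _ ≤ _ := Real.log_le_log (Real.exp_pos 1) h3
    have hr1 : 1 ≤ r := Nat.one_le_iff_ne_zero.2 (NeZero.ne r)
    have hLL1 : 1 ≤ LL r t := hLLpos r hr1
    have hLL0 : 0 < LL r t := by linarith
    set δ : ℝ := c' * y ^ (-(1 / 4) : ℝ) / (LL r t) ^ 8 with hδ
    have hyq : y ^ (-(1 / 4) : ℝ) ≤ 1 := by
      refine Real.rpow_le_one_of_one_le_of_nonpos (by linarith) (by norm_num)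
    have hyq0 : 0 < y ^ (-(1 / 4) : ℝ) := by positivity
    have hδ0 : 0 < δ := by positivity
    have hδ1 : δ ≤ 1 := by
      rw [hδ, div_le_one (by positivity)]
      have h5 : 1 ≤ (LL r t) ^ 8 := one_le_pow₀ hLL1
      have h6 : c' ≤ 1 := min_le_right _ _
      have h7 : c' * y ^ (-(1 / 4) : ℝ) ≤ 1 * 1 := mul_le_mul h6 hyq hyq0.le zero_le_one
      linarith
    have hδL : δ ≤ ‖Lj χ 0 (((1 + 1 / Real.log x : ℝ) : ℂ) + (t : ℂ) * Complex.I)‖ := by
      refine le_trans ?_ (hL x hxL r hrB χ hprim hχ1 hgood t)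
      rw [hδ]
      refine div_le_div_of_nonneg_right ?_ (by positivity)
      exact mul_le_mul_of_nonneg_right (min_le_left _ _) hyq0.le
    have hFb := hF r χ hχ1 (((1 + 1 / Real.log x : ℝ) : ℂ) + (t : ℂ) * Complex.I) δ
      (by rw [hre]; exact hσ1) (by rw [hre]; exact hσ2) hδ0 hδ1 hδL
    rw [him] at hFb
    have hq : (LL r t) ^ 2 / δ = (1 / c') * (LL r t) ^ 10 * y ^ (1 / 4 : ℝ) := by
      rw [hδ, Real.rpow_neg hy0.le]
      field_simp
    have hyk : (y ^ (1 / 4 : ℝ)) ^ (k + 1) = y ^ (A + 2) := by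
      rw [← Real.rpow_natCast, ← Real.rpow_mul hy0.le, ← Real.rpow_natCast]
      congr 1
      rw [hk]
      push_cast
      ring
    have hLLb : LL r t ≤ (B * Real.log y + 1) * Real.log (|2 * Real.pi * u| + 3) := by
      unfold LL
      have hr0' : (0 : ℝ) < r := by exact_mod_cast hr1
      have ht' : |t| = |2 * Real.pi * u| := by rw [ht, abs_neg]
      have h3pos : (0 : ℝ) < |2 * Real.pi * u| + 3 := by positivity
      rw [ht', Real.log_mul hr0'.ne' h3pos.ne']
      have h5 : Real.log r ≤ B * Real.log y := by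
        calc Real.log r ≤ Real.log (y ^ B) := Real.log_le_log hr0' hrB
          _ = B * Real.log y := Real.log_pow _ _
      have h6 : 1 ≤ Real.log (|2 * Real.pi * u| + 3) := by
        have := hLLpos 1 le_rfl
        unfold LL at this
        rw [ht'] at this
        simpa using this
      have h7 : 0 ≤ (B : ℝ) * Real.log y := by positivity
      nlinarith
    have hlog0 : 0 ≤ Real.log (|2 * Real.pi * u| + 3) := by
      apply Real.log_nonneg
      have := abs_nonneg (2 * Real.pi * u)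
      linarith
    have hLL10 : ((LL r t) ^ 10) ^ (k + 1) ≤ (B * Real.log y + 1) ^ (10 * (k + 1)) *
        (CM * (1 + u ^ 2) ^ (1 / 4 : ℝ)) := by
      rw [← pow_mul]
      calc (LL r t) ^ (10 * (k + 1)) ≤ ((B * Real.log y + 1) *
            Real.log (|2 * Real.pi * u| + 3)) ^ (10 * (k + 1)) :=
            pow_le_pow_left₀ hLL0.le hLLb _
        _ = (B * Real.log y + 1) ^ (10 * (k + 1)) *
            (Real.log (|2 * Real.pi * u| + 3)) ^ (10 * (k + 1)) := mul_pow _ _ _
        _ ≤ _ := mul_le_mul_of_nonneg_left (hM u) (by positivity)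
    have hFb2 : ‖Fj χ k (((1 + 1 / Real.log x : ℝ) : ℂ) + (t : ℂ) * Complex.I)‖ ≤
        CF * ((1 / c') ^ (k + 1) * ((B * Real.log y + 1) ^ (10 * (k + 1)) *
        (CM * (1 + u ^ 2) ^ (1 / 4 : ℝ))) * y ^ (A + 2)) := by
      refine hFb.trans (mul_le_mul_of_nonneg_left ?_ hCF.le)
      rw [hq, mul_pow, mul_pow, hyk]
      refine mul_le_mul_of_nonneg_right ?_ (by positivity)
      exact mul_le_mul_of_nonneg_left hLL10 (by positivity)
    have hexp' : ‖Complex.exp (-(2 * Real.pi * Complex.I * u * lam))‖ = 1 := by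
      rw [Complex.norm_exp]
      simp
    rw [norm_mul, norm_mul, hexp', mul_one, hs]
    have hu1 : (0 : ℝ) < 1 + u ^ 2 := by positivity
    calc ‖g u‖ * ‖Fj χ k (((1 + 1 / Real.log x : ℝ) : ℂ) + (t : ℂ) * Complex.I)‖
        ≤ (CG / (1 + u ^ 2)) * (CF * ((1 / c') ^ (k + 1) *
          ((B * Real.log y + 1) ^ (10 * (k + 1)) *
          (CM * (1 + u ^ 2) ^ (1 / 4 : ℝ))) * y ^ (A + 2))) :=
          mul_le_mul (hgb u) hFb2 (norm_nonneg _) (by positivity)
      _ = D * ((1 + u ^ 2) ^ (1 / 4 : ℝ) / (1 + u ^ 2)) := by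
          rw [hD]
          ring
      _ = D * (1 + u ^ 2) ^ (-(3 / 4) : ℝ) := by
          congr 1
          rw [div_eq_mul_inv, ← Real.rpow_neg_one (1 + u ^ 2), ← Real.rpow_add hu1]
          norm_num
  have hint := norm_integral_le_of_norm_le (sw_integrable.const_mul D)
    (Filter.Eventually.of_forall hptw)
  rw [integral_const_mul, ← hJ] at hint
  -- the final estimate
  have hexpb : Real.exp (σ * lam) ≤ Real.exp 2 * X := by
    have e1 : σ * lam = lam + lam / y := by
      rw [hσ]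
      field_simp
    have e2 : lam / y ≤ 2 := by
      rw [div_le_iff₀ hy0]
      linarith
    rw [e1, Real.exp_add, hlam, Real.exp_log hX0, mul_comm]
    exact mul_le_mul_of_nonneg_right (Real.exp_le_exp.2 e2) hX0.le
  have hlamk : (lam ^ k)⁻¹ ≤ (y ^ k)⁻¹ := inv_anti₀ (by positivity)
    (pow_le_pow_left₀ hy0.le hlam1 k)
  have hDJ : 0 ≤ D * J := by positivity
  calc Real.exp (σ * lam) * (lam ^ k)⁻¹ * ‖∫ u, g u *
        Complex.exp (-(2 * Real.pi * Complex.I * u * lam)) *
        Fj χ k ((σ : ℂ) - 2 * Real.pi * u * Complex.I)‖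
      ≤ (Real.exp 2 * X) * (y ^ k)⁻¹ * (D * J) :=
        mul_le_mul (mul_le_mul hexpb hlamk (by positivity) (by positivity)) hint
          (norm_nonneg _) (by positivity)
    _ = x * (y ^ k)⁻¹ * y ^ (A + 2) * (K0 * (B * Real.log y + 1) ^ (10 * (k + 1))) := by
        rw [hD, hK0, hX]
        ring
    _ ≤ x * (y ^ k)⁻¹ * y ^ (A + 2) * y := mul_le_mul_of_nonneg_left hfin (by positivity)
    _ ≤ x / y ^ A := by
        rw [div_eq_mul_inv, mul_assoc, mul_assoc, ← pow_succ]
        refine mul_le_mul_of_nonneg_left ?_ hx0.le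
        have hyk : y ^ k = y ^ (A + 2 + 1) * y ^ (3 * A + 4) := by
          rw [← pow_add]
          congr 1
          rw [hk]
          ring
        rw [hyk, mul_inv, mul_comm, ← mul_assoc, mul_inv_cancel₀ (by positivity), one_mul]
        refine inv_anti₀ (by positivity) ?_
        exact pow_le_pow_right₀ (by linarith) (by omega)

end TIE
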