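import Pool.Agent.H70.TIE.Base
import Pool.Agent.H70.TIE.HARM

/-!
# Project TIE, module VAR: lower bound for the variance
-/

set_option autoImplicit false

namespace TIE
open Finset MTA

theorem kappa_ne {q a b : ℕ} (hq : 1 ≤ q) (hab : ¬ a ≡ b [MOD q]) : ee (a / q) - ee (b / q) ≠ 0 := by
  intro h
  apply hab
  rw [sub_eq_zero] at h
  unfold ee at h
  rw [Complex.exp_eq_exp_iff_exists_int] at h
  obtain ⟨n, hn⟩ := h
  have hq0 : (q : ℂ) ≠ 0 := by exact_mod_cast (by omega : q ≠ 0)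
  have hpi : (2 * Real.pi * Complex.I : ℂ) ≠ 0 := Complex.two_pi_I_ne_zero
  have h2 : (2 * Real.pi * Complex.I : ℂ) * (a / q) = (2 * Real.pi * Complex.I) * (b / q + n) := by
    push_cast at hn
    rw [hn]
    ring
  have h3 := mul_left_cancel₀ hpi h2
  have h4 : (a : ℂ) = b + n * q := by
    field_simp at h3
    rw [h3]
    ring
  have h5 : (a : ℤ) = b + n * q := by exact_mod_cast h4
  rw [Nat.modEq_iff_dvd]
  exact ⟨-n, by rw [h5]; ring⟩

/-- `r d(r) / φ(r) ≤ 4^ω(r)` for squarefree `r` -/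
theorem sqfree_ratio {r : ℕ} (hr : Squarefree r) :
    (1 / (r.totient : ℝ)) * (r * r.divisors.card) ≤ (4 : ℝ) ^ r.primeFactors.card := by
  have h1 : (r : ℝ) = ∏ p ∈ r.primeFactors, (p : ℝ) := by
    rw [← Nat.cast_prod, Nat.prod_primeFactors_of_squarefree hr]
  have h2 : (r.divisors.card : ℝ) = (2 : ℝ) ^ r.primeFactors.card := by
    have h3 : r.divisors.card = 2 ^ r.primeFactors.card := by
      rw [Nat.card_divisors hr.ne_zero, ← prod_const]
      refine prod_congr rfl fun p hp => ?_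
      have h4 := Squarefree.natFactorization_le_one p hr
      have h5 := (Nat.prime_of_mem_primeFactors hp).factorization_pos_of_dvd hr.ne_zero
        (Nat.dvd_of_mem_primeFactors hp)
      omega
    rw [h3]
    push_cast
    rfl
  have hφ := totient_sqfree hr
  have hpos : (0 : ℝ) < r.totient := by
    exact_mod_cast Nat.totient_pos.2 (Nat.pos_of_ne_zero hr.ne_zero)
  have h4 : (r : ℝ) ≤ 2 ^ r.primeFactors.card * (r.totient : ℝ) := by
    rw [hφ, ← prod_const, ← prod_mul_distrib]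
    conv_lhs => rw [h1]
    refine prod_le_prod (fun p _ => Nat.cast_nonneg p) fun p hp => ?_
    have hp2 : (2 : ℝ) ≤ p := by exact_mod_cast (Nat.prime_of_mem_primeFactors hp).two_le
    linarith
  rw [h2, one_div_mul_eq_div, div_le_iff₀ hpos]
  have h5 : (4 : ℝ) ^ r.primeFactors.card = 2 ^ r.primeFactors.card * 2 ^ r.primeFactors.card := by
    rw [← mul_pow]
    norm_num
  rw [h5]
  have h6 : (0 : ℝ) ≤ 2 ^ r.primeFactors.card := by positivity
  nlinarith

theorem VAR (h1 : MTA.S_LSA) (h2 : MTA.S_CHE) (h3 : S_BVTx) (h4 : S_VR) (h5 : S_FD) (h6 : S_S1)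
    (h7 : S_HARM) : S_VAR := by
  intro q a b hq ha hb hab
  obtain ⟨C, hC, hL⟩ := h1
  obtain ⟨c1, C1, hc1, -, hT⟩ := h2
  obtain ⟨xT, hT⟩ := hT 1 le_rfl
  obtain ⟨cH, hcH, hH⟩ := h7 q hq
  obtain ⟨xS, hS⟩ := h6
  have hκ := kappa_ne hq hab
  set κ : ℂ := ee (a / q) - ee (b / q) with hκdef
  have hκ0 : 0 < ‖κ‖ := norm_pos_iff.2 hκ
  have hφq : (0 : ℝ) < q.totient := by exact_mod_cast Nat.totient_pos.2 hq
  refine ⟨‖κ‖ ^ 2 * c1 ^ 2 * cH / (80 * (q.totient : ℝ) ^ 2 * C), by positivity, fun A => ?_⟩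
  obtain ⟨xB, hB⟩ := h3 (2 * A + 1) 4 q hq
  obtain ⟨xF, hF⟩ := h5 A
  obtain ⟨xH, hH⟩ := hH (3 * A + 1)
  -- eventual conditions
  have hev : ∀ᶠ x : ℝ in Filter.atTop, 3 ≤ x ∧ 2 ≤ Real.log x ∧ (x ^ (1 / 6 : ℝ)) ^ 2 ≤ x ∧
      2 ≤ ‖κ‖ * c1 / q.totient * cH / 4 * (Real.log x) ^ 2 := by
    have e1 : ∀ᶠ y : ℝ in Filter.atTop, 2 ≤ y ∧ 2 ≤ ‖κ‖ * c1 / q.totient * cH / 4 * y ^ 2 := by
      filter_upwards [Filter.eventually_ge_atTop (2 : ℝ),
        Filter.eventually_ge_atTop (2 / (‖κ‖ * c1 / q.totient * cH / 4))] with y y1 y2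
      refine ⟨y1, ?_⟩
      rw [div_le_iff₀ (by positivity)] at y2
      have h8 : 0 < ‖κ‖ * c1 / q.totient * cH / 4 := by positivity
      nlinarith
    filter_upwards [Real.tendsto_log_atTop.eventually e1, Filter.eventually_ge_atTop (3 : ℝ)]
      with x hx hx3
    refine ⟨hx3, hx.1, ?_, hx.2⟩
    rw [← Real.rpow_natCast, ← Real.rpow_mul (by linarith)]
    calc x ^ (1 / 6 * ((2 : ℕ) : ℝ)) ≤ x ^ (1 : ℝ) :=
          Real.rpow_le_rpow_of_exponent_le (by linarith) (by norm_num)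
      _ = x := Real.rpow_one x
  obtain ⟨xE, hE⟩ := Filter.eventually_atTop.1 hev
  refine ⟨max (max (max xT xS) (max xB xF)) (max xH xE), fun x hx h hh1 hhA => ?_⟩
  simp only [max_le_iff] at hx
  obtain ⟨⟨⟨hxT, hxS⟩, hxB, hxF⟩, hxH, hxE⟩ := hx
  obtain ⟨hx3, hl2, hx6, hfin⟩ := hE x hxE
  obtain ⟨p0, hp0, hBV⟩ := hB x hxB
  have hTH := (hT x hxT).1
  have hHx := hH x hxH p0 hp0
  set R : ℕ := ⌊x ^ (1 / 6 : ℝ)⌋₊ with hR
  set N : ℕ := ⌊9 * x⌋₊ with hN
  have hx0 : 0 < x := by linarith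
  have hl0 : 0 < Real.log x := by linarith
  have hRx : (R : ℝ) ≤ x ^ (1 / 6 : ℝ) := Nat.floor_le (by positivity)
  have hNx : (N : ℝ) ≤ 9 * x := Nat.floor_le (by positivity)
  have hR1 : 1 ≤ R := Nat.le_floor (by
    push_cast
    exact Real.one_le_rpow (by linarith) (by norm_num))
  have hN1 : 1 ≤ N := Nat.le_floor (by push_cast; linarith)
  set T : Finset ℕ := (Icc 1 R).filter (fun r => Squarefree r ∧ r.Coprime q ∧ r.Coprime p0 ∧
      (Real.log x) ^ (3 * A + 1) ≤ r.totient) with hTdef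
  have hTm : ∀ r ∈ T, 1 ≤ r ∧ r ≤ R ∧ Squarefree r ∧ r.Coprime q ∧ r.Coprime p0 ∧
      (Real.log x) ^ (3 * A + 1) ≤ r.totient := by
    intro r hr
    rw [hTdef, mem_filter, mem_Icc] at hr
    exact ⟨hr.1.1, hr.1.2, hr.2⟩
  have hφ : ∀ r ∈ T, (0 : ℝ) < r.totient := by
    intro r hr
    exact_mod_cast Nat.totient_pos.2 (hTm r hr).1
  -- the local variances
  set V : ℕ → ℝ := fun r => ∑ s ∈ RR r, ‖Dh h (s / r + 1 / q)‖ ^ 2 with hV
  have hV0 : ∀ r, 0 ≤ V r := fun r => sum_nonneg fun _ _ => sq_nonneg _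
  have hVlow : ∀ r ∈ T, (h : ℝ) * r.totient / 2 ≤ V r := by
    intro r hr
    refine h4 r h (1 / q) (hTm r hr).1 hh1 ?_
    have h8 : (2 : ℝ) * h ^ 3 ≤ r.totient := by
      refine le_trans ?_ (hTm r hr).2.2.2.2.2
      have h9 : (h : ℝ) ^ 3 ≤ ((Real.log x) ^ A) ^ 3 := pow_le_pow_left₀ (Nat.cast_nonneg _) hhA 3
      rw [← pow_mul] at h9
      have h10 : (Real.log x) ^ (3 * A + 1) = (Real.log x) ^ (A * 3) * Real.log x := by
        rw [mul_comm 3 A, pow_succ]
      have h11 : 0 ≤ (Real.log x) ^ (A * 3) := by positivity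
      rw [h10]
      nlinarith
    exact_mod_cast h8
  set VV : ℝ := ∑ r ∈ T, V r / (r.totient : ℝ) ^ 2 with hVV
  have hVVlow : (h : ℝ) / 2 * (cH * Real.log x) ≤ VV := by
    calc (h : ℝ) / 2 * (cH * Real.log x) ≤ (h : ℝ) / 2 * ∑ r ∈ T, 1 / (r : ℝ) :=
          mul_le_mul_of_nonneg_left hHx (by positivity)
      _ = ∑ r ∈ T, (h : ℝ) / 2 * (1 / (r : ℝ)) := by rw [mul_sum]
      _ ≤ VV := by
          refine sum_le_sum fun r hr => ?_
          have h8 := hVlow r hr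
          have h9 := hφ r hr
          have h10 : (r.totient : ℝ) ≤ r := by exact_mod_cast Nat.totient_le r
          calc (h : ℝ) / 2 * (1 / (r : ℝ)) ≤ (h : ℝ) / 2 * (1 / (r.totient : ℝ)) := by
                refine mul_le_mul_of_nonneg_left ?_ (by positivity)
                exact one_div_le_one_div_of_le h9 h10
            _ = ((h : ℝ) * r.totient / 2) / (r.totient : ℝ) ^ 2 := by field_simp
            _ ≤ V r / (r.totient : ℝ) ^ 2 := div_le_div_of_nonneg_right h8 (by positivity)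
  have hVV0 : 0 < VV := lt_of_lt_of_le (by positivity) hVVlow
  -- the exponential sums of `Fh`
  set G : ℕ → ℕ → ℂ := fun r s => (starRingEnd ℂ) (Dh h (s / r + 1 / q)) *
    fhat q a b x (s / r + 1 / q) with hG
  set SF2 : ℝ := ∑ y ∈ Icc 1 N, (Fh q a b x h y) ^ 2 with hSF2
  have hLS : ∑ r ∈ T, ∑ s ∈ RR r, ‖G r s‖ ^ 2 ≤ C * (N + (R : ℝ) ^ 2) * SF2 := by
    have h8 := hL R N 0 hR1 hN1 (fun n => (Fh q a b x h n : ℂ) * ee (n / q))
    have h9 : Ioc 0 (0 + N) = Icc 1 N := by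
      ext n
      rw [mem_Ioc, mem_Icc]
      omega
    rw [h9] at h8
    have h10 : ∑ n ∈ Icc 1 N, ‖(Fh q a b x h n : ℂ) * ee (n / q)‖ ^ 2 = SF2 := by
      refine sum_congr rfl fun n _ => ?_
      rw [norm_mul, norm_ee, mul_one, Complex.norm_real, Real.norm_eq_abs, sq_abs]
    rw [h10] at h8
    refine le_trans ?_ h8
    calc ∑ r ∈ T, ∑ s ∈ RR r, ‖G r s‖ ^ 2 ≤ ∑ r ∈ Icc 1 R, ∑ s ∈ RR r, ‖G r s‖ ^ 2 :=
          sum_le_sum_of_subset_of_nonneg (filter_subset _ _)
            fun _ _ _ => sum_nonneg fun _ _ => sq_nonneg _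
      _ = _ := by
          refine sum_congr rfl fun r _ => sum_congr rfl fun s _ => ?_
          have h11 := hF x hxF q a b h (s / r + 1 / q) hhA
          rw [← hN] at h11
          have h12 : G r s = ∑ y ∈ Icc 1 N, (Fh q a b x h y : ℂ) * ee (y * (s / r + 1 / q)) := by
            rw [h11]
          rw [h12]
          congr 2
          refine sum_congr rfl fun y _ => ?_
          have h13 : (y : ℝ) * (s / r + 1 / q) = y / q + y * s / r := by ring
          rw [h13, ee_addB, ← mul_assoc]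
          congr 1
          unfold ee
          congr 1
          push_cast
          ring
  -- the dual sum
  set S : ℂ := ∑ r ∈ T, (((ArithmeticFunction.moebius r : ℤ) : ℂ) / (r.totient : ℂ)) *
    ∑ s ∈ RR r, ((‖Dh h (s / r + 1 / q)‖ ^ 2 : ℝ) : ℂ) * fhat q a b x (s / r + 1 / q) with hSdef
  have hmu : ∀ r ∈ T, ((ArithmeticFunction.moebius r : ℤ) : ℝ) ^ 2 = 1 := by
    intro r hr
    have := ArithmeticFunction.moebius_sq_eq_one_of_squarefree (hTm r hr).2.2.1
    exact_mod_cast this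
  have hmuabs : ∀ r ∈ T, ‖((ArithmeticFunction.moebius r : ℤ) : ℂ)‖ = 1 := by
    intro r hr
    have h8 := hmu r hr
    have h9 : ‖((ArithmeticFunction.moebius r : ℤ) : ℂ)‖ = |((ArithmeticFunction.moebius r : ℤ) : ℝ)| := by
      rw [Complex.norm_intCast]
    rw [h9, ← Real.sqrt_sq_eq_abs, h8, Real.sqrt_one]
  -- Cauchy-Schwarz
  have hCS : ‖S‖ ^ 2 ≤ VV * ∑ r ∈ T, ∑ s ∈ RR r, ‖G r s‖ ^ 2 := by
    have h8 : ‖S‖ ≤ ∑ z ∈ T.sigma RR, (‖Dh h (z.2 / z.1 + 1 / q)‖ / (z.1.totient : ℝ)) *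
        ‖G z.1 z.2‖ := by
      rw [hSdef]
      refine (norm_sum_le _ _).trans ?_
      rw [sum_sigma]
      refine sum_le_sum fun r hr => ?_
      rw [norm_mul, norm_div, hmuabs r hr, Complex.norm_natCast]
      refine (mul_le_mul_of_nonneg_left (norm_sum_le _ _) (by positivity)).trans ?_
      rw [mul_sum]
      refine sum_le_sum fun s _ => ?_
      rw [norm_mul, Complex.norm_real, Real.norm_of_nonneg (sq_nonneg _), hG]
      simp only
      rw [norm_mul, Complex.norm_conj]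
      apply le_of_eq
      ring
    have h9 := Finset.sum_mul_sq_le_sq_mul_sq (T.sigma RR)
      (fun z => ‖Dh h (z.2 / z.1 + 1 / q)‖ / (z.1.totient : ℝ)) (fun z => ‖G z.1 z.2‖)
    have h10 : ∑ z ∈ T.sigma RR, (‖Dh h (z.2 / z.1 + 1 / q)‖ / (z.1.totient : ℝ)) ^ 2 = VV := by
      rw [sum_sigma, hVV]
      refine sum_congr rfl fun r _ => ?_
      rw [hV]
      simp only
      rw [sum_div]
      refine sum_congr rfl fun s _ => ?_
      rw [div_pow]
    have h11 : ∑ z ∈ T.sigma RR, ‖G z.1 z.2‖ ^ 2 = ∑ r ∈ T, ∑ s ∈ RR r, ‖G r s‖ ^ 2 :=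
      sum_sigma T RR (fun z => ‖G z.1 z.2‖ ^ 2)
    rw [h10, h11] at h9
    exact (pow_le_pow_left₀ (norm_nonneg _) h8 2).trans h9
  -- main term of the dual sum
  have hmain : ‖κ‖ * (TH 1 x / q.totient) * VV - 2 * (h : ℝ) ^ 2 * (x / (Real.log x) ^ (2 * A + 1)) ≤
      ‖S‖ := by
    have h8 : S - κ * ((TH 1 x / q.totient * VV : ℝ) : ℂ) =
        ∑ r ∈ T, (((ArithmeticFunction.moebius r : ℤ) : ℂ) / (r.totient : ℂ)) *
          ((∑ s ∈ RR r, ((‖Dh h (s / r + 1 / q)‖ ^ 2 : ℝ) : ℂ) * fhat q a b x (s / r + 1 / q)) -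
            κ * ((TH 1 x * (ArithmeticFunction.moebius r : ℤ) /
              (q.totient * r.totient) * V r : ℝ) : ℂ)) := by
      rw [hSdef, hVV]
      have h9 : κ * ((TH 1 x / q.totient * ∑ r ∈ T, V r / (r.totient : ℝ) ^ 2 : ℝ) : ℂ) =
          ∑ r ∈ T, (((ArithmeticFunction.moebius r : ℤ) : ℂ) / (r.totient : ℂ)) *
            (κ * ((TH 1 x * (ArithmeticFunction.moebius r : ℤ) /
              (q.totient * r.totient) * V r : ℝ) : ℂ)) := by
        rw [mul_sum, Complex.ofReal_sum, mul_sum]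
        refine sum_congr rfl fun r hr => ?_
        have h10 : (((ArithmeticFunction.moebius r : ℤ) : ℂ)) ^ 2 = 1 := by
          have := hmu r hr
          exact_mod_cast this
        have h11 : (r.totient : ℂ) ≠ 0 := by exact_mod_cast (hφ r hr).ne'
        have h12 : (q.totient : ℂ) ≠ 0 := by exact_mod_cast hφq.ne'
        push_cast
        field_simp
        rw [h10]
        ring
      rw [h9, ← sum_sub_distrib]
      refine sum_congr rfl fun r _ => ?_
      rw [mul_sub]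
    have h9 : ‖S - κ * ((TH 1 x / q.totient * VV : ℝ) : ℂ)‖ ≤
        2 * (h : ℝ) ^ 2 * (x / (Real.log x) ^ (2 * A + 1)) := by
      rw [h8]
      refine (norm_sum_le _ _).trans ?_
      have h10 : ∀ r ∈ T, ‖(((ArithmeticFunction.moebius r : ℤ) : ℂ) / (r.totient : ℂ)) *
          ((∑ s ∈ RR r, ((‖Dh h (s / r + 1 / q)‖ ^ 2 : ℝ) : ℂ) * fhat q a b x (s / r + 1 / q)) -
            κ * ((TH 1 x * (ArithmeticFunction.moebius r : ℤ) /
              (q.totient * r.totient) * V r : ℝ) : ℂ))‖ ≤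
          2 * (h : ℝ) ^ 2 * ((4 : ℝ) ^ r.primeFactors.card * Emax 1 x (q * r)) := by
        intro r hr
        obtain ⟨hr1, hrR, hrs, hrq, -, -⟩ := hTm r hr
        have hrx : (r : ℝ) ≤ x ^ (1 / 6 : ℝ) := le_trans (by exact_mod_cast hrR) hRx
        have h11 := hS x hxS q a b r h hq ha hb hrs hrq hrx
        rw [norm_mul, norm_div, hmuabs r hr, Complex.norm_natCast]
        have h12 := sqfree_ratio hrs
        have h13 := Emax_nonneg 1 x (q * r)
        have h14 := hφ r hr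
        calc 1 / (r.totient : ℝ) * _ ≤ 1 / (r.totient : ℝ) *
              (2 * (h : ℝ) ^ 2 * (r * r.divisors.card) * Emax 1 x (q * r)) :=
              mul_le_mul_of_nonneg_left h11 (by positivity)
          _ = 2 * (h : ℝ) ^ 2 * ((1 / (r.totient : ℝ) * (r * r.divisors.card)) *
              Emax 1 x (q * r)) := by ring
          _ ≤ _ := by
              refine mul_le_mul_of_nonneg_left ?_ (by positivity)
              exact mul_le_mul_of_nonneg_right h12 h13
      refine (sum_le_sum h10).trans ?_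
      rw [← mul_sum]
      refine mul_le_mul_of_nonneg_left ?_ (by positivity)
      refine le_trans ?_ hBV
      have h11 : ((4 : ℕ) : ℝ) = 4 := by norm_num
      rw [h11]
      refine sum_le_sum_of_subset_of_nonneg ?_ ?_
      · intro r hr
        obtain ⟨hr1, hrR, hrs, hrq, hrp, -⟩ := hTm r hr
        rw [mem_filter, mem_Icc]
        exact ⟨⟨hr1, hrR⟩, hrs, hrp⟩
      · intro r _ _
        exact mul_nonneg (by positivity) (Emax_nonneg _ _ _)
    have h10 := norm_sub_norm_le (κ * ((TH 1 x / q.totient * VV : ℝ) : ℂ)) S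
    have h11 : ‖κ * ((TH 1 x / q.totient * VV : ℝ) : ℂ)‖ = ‖κ‖ * (TH 1 x / q.totient) * VV := by
      have hTH0 : 0 ≤ TH 1 x := le_trans (by positivity) hTH
      rw [norm_mul, Complex.norm_real, Real.norm_of_nonneg (by positivity)]
      ring
    rw [← norm_sub_rev, h11] at h10
    linarith
  -- the end
  have hTH1 : c1 * x ≤ TH 1 x := by
    have : c1 * (((1 : ℕ) : ℝ) * x) = c1 * x := by norm_num
    linarith
  have hTH0 : 0 < TH 1 x := lt_of_lt_of_le (by positivity) hTH1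
  have herr : 2 * (h : ℝ) ^ 2 * (x / (Real.log x) ^ (2 * A + 1)) ≤
      1 / 2 * (‖κ‖ * (TH 1 x / q.totient) * VV) := by
    have h8 : (h : ℝ) ^ 2 ≤ (Real.log x) ^ (2 * A) := by
      have := pow_le_pow_left₀ (Nat.cast_nonneg _) hhA 2
      rwa [← pow_mul, mul_comm A 2] at this
    have h9 : 2 * (h : ℝ) ^ 2 * (x / (Real.log x) ^ (2 * A + 1)) ≤ 2 * (x / Real.log x) := by
      have h10 : (h : ℝ) ^ 2 * (x / (Real.log x) ^ (2 * A + 1)) ≤
          (Real.log x) ^ (2 * A) * (x / (Real.log x) ^ (2 * A + 1)) :=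
        mul_le_mul_of_nonneg_right h8 (by positivity)
      have h11 : (Real.log x) ^ (2 * A) * (x / (Real.log x) ^ (2 * A + 1)) = x / Real.log x := by
        rw [pow_succ]
        field_simp
      linarith
    refine h9.trans ?_
    have h10 : ‖κ‖ * (c1 * x / q.totient) * (1 / 2 * (cH * Real.log x)) ≤
        ‖κ‖ * (TH 1 x / q.totient) * VV := by
      refine mul_le_mul ?_ ?_ (by positivity) (by positivity)
      · refine mul_le_mul_of_nonneg_left ?_ hκ0.le
        exact div_le_div_of_nonneg_right hTH1 hφq.le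
      · refine le_trans ?_ hVVlow
        have : (1 : ℝ) ≤ h := by exact_mod_cast hh1
        refine mul_le_mul_of_nonneg_right ?_ (by positivity)
        linarith
    have h11 : 2 * (x / Real.log x) ≤ ‖κ‖ * (c1 * x / q.totient) * (1 / 4 * (cH * Real.log x)) := by
      have h12 : 2 * (x / Real.log x) = x / Real.log x * 2 := by ring
      have h13 : ‖κ‖ * (c1 * x / q.totient) * (1 / 4 * (cH * Real.log x)) =
          x / Real.log x * (‖κ‖ * c1 / q.totient * cH / 4 * (Real.log x) ^ 2) := by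
        field_simp
      rw [h12, h13]
      exact mul_le_mul_of_nonneg_left hfin (by positivity)
    linarith
  set M : ℝ := ‖κ‖ * (TH 1 x / q.totient) with hM
  have hM0 : 0 < M := by positivity
  have hS2 : 1 / 2 * (M * VV) ≤ ‖S‖ := by linarith
  have hNR : (N : ℝ) + (R : ℝ) ^ 2 ≤ 10 * x := by
    have : (R : ℝ) ^ 2 ≤ (x ^ (1 / 6 : ℝ)) ^ 2 := pow_le_pow_left₀ (Nat.cast_nonneg _) hRx 2
    linarith
  have hSF0 : 0 ≤ SF2 := sum_nonneg fun _ _ => sq_nonneg _
  have h8 : (1 / 2 * (M * VV)) ^ 2 ≤ VV * (C * (10 * x) * SF2) := by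
    calc (1 / 2 * (M * VV)) ^ 2 ≤ ‖S‖ ^ 2 := pow_le_pow_left₀ (by positivity) hS2 2
      _ ≤ VV * ∑ r ∈ T, ∑ s ∈ RR r, ‖G r s‖ ^ 2 := hCS
      _ ≤ VV * (C * (N + (R : ℝ) ^ 2) * SF2) := mul_le_mul_of_nonneg_left hLS hVV0.le
      _ ≤ _ := by
          refine mul_le_mul_of_nonneg_left ?_ hVV0.le
          refine mul_le_mul_of_nonneg_right ?_ hSF0
          exact mul_le_mul_of_nonneg_left hNR hC.le
  have h9 : M ^ 2 * VV / 4 ≤ C * (10 * x) * SF2 := by
    have h10 : (1 / 2 * (M * VV)) ^ 2 = VV * (M ^ 2 * VV / 4) := by ring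
    rw [h10] at h8
    exact le_of_mul_le_mul_left h8 hVV0
  have h10 : (‖κ‖ * (c1 * x / q.totient)) ^ 2 * ((h : ℝ) / 2 * (cH * Real.log x)) / 4 ≤
      M ^ 2 * VV / 4 := by
    refine div_le_div_of_nonneg_right ?_ (by norm_num)
    refine mul_le_mul ?_ hVVlow (by positivity) (by positivity)
    refine pow_le_pow_left₀ (by positivity) ?_ 2
    refine mul_le_mul_of_nonneg_left ?_ hκ0.le
    exact div_le_div_of_nonneg_right hTH1 hφq.le
  have h11 := h10.trans h9
  have h12 : ‖κ‖ ^ 2 * c1 ^ 2 * cH / (80 * (q.totient : ℝ) ^ 2 * C) * x * h * Real.log x =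
      ((‖κ‖ * (c1 * x / q.totient)) ^ 2 * ((h : ℝ) / 2 * (cH * Real.log x)) / 4) / (C * (10 * x)) := by
    field_simp
    norm_num
  rw [h12, div_le_iff₀ (by positivity)]
  linarith

end TIE
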