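import Pool.Agent.H20.MTA.All
import Pool.Agent.H70.TIE.LBDx
import Pool.Agent.H70.TIE.SWx
import Pool.Agent.H70.TIE.S1
import Pool.Agent.H70.TIE.VAR
import Pool.Agent.H70.TIE.TIE
import Pool.Agent.H8.TIE.VR
import Pool.Agent.H17.TIEP.ALS
import Pool.Agent.H73.TIE.ONE
import Pool.Agent.H96.TIE.LJ
import Pool.Agent.H96.TIE.KT
import Pool.Agent.H82.TIE.LIP
import Pool.Agent.H36.TIE.AVG
import Pool.Agent.H36.TIE.JAV
import Pool.Agent.H36.TIE.MOM
import Pool.Agent.H55.TIE.BVx
import Pool.Agent.H55.TIE.BVTx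
import Pool.Agent.H55.TIE.FIX
import Pool.Agent.H58.TIE.RAM
import Pool.Agent.H58.TIE.RSUM
import Pool.Agent.H58.TIE.FD

/-! # Project TIE: assembly -/

set_option autoImplicit false

namespace TIE
open MTA

theorem all_LBDx : S_LBDx := LBDx all_LUP all_ZUP all_LIP

theorem all_SWx : S_SWx := SWx all_LBDx all_FJ all_SWF

theorem all_ONE : S_ONE := ONE all_LUP all_ZUP all_LIP

theorem all_FIX : S_FIX := FIX

theorem all_BVx : S_BVx := BVx all_SWx all_LARGE all_CHAR all_THPSI all_PRIMV all_REARR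

theorem all_BVTx : S_BVTx := BVTx all_BVx all_CHE all_MERT all_ONE all_FIX

theorem all_ALS : S_ALS := ALS all_LSA

theorem all_LJ : S_LJ := LJ all_COPR all_MSUM

theorem all_KT : S_KT := KT all_ALS all_LJ

theorem all_AVG : S_AVG := AVG

theorem all_JAV : S_JAV := JAV all_AVG

theorem all_MOM : S_MOM := MOM all_KT all_JAV

theorem all_RAM : S_RAM := RAM

theorem all_RSUM : S_RSUM := RSUM all_RAM

theorem all_VR : S_VR := VR all_RAM

theorem all_FD : S_FD := FD

theorem all_S1 : S_S1 := S1 all_RAM all_RSUM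

theorem all_HARM : S_HARM := HARM all_MSUM all_COPR

theorem all_VAR : S_VAR := VAR all_LSA all_CHE all_BVTx all_VR all_FD all_S1 all_HARM

theorem all_LIPx : S_LIP := LIP

theorem all_TIE : S_TIEv := TIEthm all_VAR all_MOM all_LIPx

end TIE
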