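import Pool.Agent.H70.TIE.Stmts

/-!
# Project TIE, version 2: constants independent of the modulus
-/

set_option autoImplicit false

namespace TIE
open Finset MTA

/-- `∏ p/(p-1)` over the primes `p ∣ d`, `p ∤ q` -/
noncomputable def gq (q d : ℕ) : ℝ :=
  ∏ p ∈ d.primeFactors.filter (fun p => ¬ p ∣ q), ((p : ℝ) / ((p : ℝ) - 1))

/-- averages over a progression; `C` does not depend on `q` -/
def S_AVGu : Prop := ∀ K : ℕ, ∃ C : ℝ, 0 < C ∧ ∀ q : ℕ, 1 ≤ q → ∃ h0 : ℕ, ∀ h κ : ℕ, h0 ≤ h →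
  ∑ d ∈ (Icc 1 h).filter (fun d => d ≡ κ [MOD q]), (gq q d) ^ K ≤ C * ((h : ℝ) / q)

/-- average over `K`-subsets of two classes; `C` does not depend on `q` -/
def S_JAVu : Prop := ∀ K : ℕ, 1 ≤ K → ∃ C : ℝ, 0 < C ∧ ∀ q : ℕ, 1 ≤ q → ∃ h0 : ℕ,
  ∀ a b h y0 : ℕ, h0 ≤ h →
  ∑ J ∈ ((Icc 1 h).filter (fun j => y0 + j ≡ a [MOD q] ∨ y0 + j ≡ b [MOD q])).powersetCard K,
    (gq q (DJ J)) ^ K ≤ C * ((h : ℝ) / q) ^ K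

/-- upper bound sieve for `K`-tuples in a progression; `C` does not depend on `q` -/
def S_KTu : Prop := ∀ K : ℕ, 1 ≤ K → ∃ C : ℝ, 0 < C ∧ ∀ q : ℕ, 1 ≤ q → ∃ N0 : ℕ, ∀ N y0 : ℕ,
  N0 ≤ N → ∀ J : Finset ℕ, J.card = K →
  (((Icc 1 N).filter (fun y => y ≡ y0 [MOD q] ∧ ∀ j ∈ J, (y + j).Prime)).card : ℝ) ≤
    C * (N / q) * ((q : ℝ) / q.totient * gq q (DJ J) / Real.log N) ^ K

/-- number of primes of the two classes in `(y, y+h]` -/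
def Xab (q a b h y : ℕ) : ℕ :=
  ((Ioc y (y + h)).filter (fun n => n.Prime ∧ (n ≡ a [MOD q] ∨ n ≡ b [MOD q]))).card

/-- moments; `C` does not depend on `q` -/
def S_MOMu : Prop := ∀ K : ℕ, 1 ≤ K → ∃ C : ℝ, 0 < C ∧ ∀ q : ℕ, 1 ≤ q → ∃ N0 : ℕ,
  ∀ a b N h : ℕ, N0 ≤ N → q.totient * Real.log N ≤ h →
  ∑ y ∈ Icc 1 N, (Xab q a b h y : ℝ) ^ K ≤ C * N * (h / (q.totient * Real.log N)) ^ K

/-- as `S_S1` with `k / q` instead of `1 / q` -/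
def S_S1k : Prop := ∃ x0 : ℝ, ∀ x : ℝ, x0 ≤ x → ∀ q a b r h k : ℕ, 1 ≤ q → a.Coprime q →
  b.Coprime q → Squarefree r → r.Coprime q → (r : ℝ) ≤ x ^ (1 / 6 : ℝ) →
  ‖(∑ s ∈ RR r, ((‖Dh h (s / r + k / q)‖ ^ 2 : ℝ) : ℂ) * fhat q a b x (s / r + k / q)) -
      (ee (a * (k / q)) - ee (b * (k / q))) * ((TH 1 x * (ArithmeticFunction.moebius r : ℤ) /
        (q.totient * r.totient) * ∑ s ∈ RR r, ‖Dh h (s / r + k / q)‖ ^ 2 : ℝ) : ℂ)‖ ≤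
    2 * (h : ℝ) ^ 2 * (r * r.divisors.card) * Emax 1 x (q * r)

/-- lower bound for the harmonic sum, explicit in `q` -/
def S_HARMu : Prop := ∃ c : ℝ, 0 < c ∧ ∀ q : ℕ, 1 ≤ q → ∀ A : ℕ, ∃ x0 : ℝ, ∀ x : ℝ, x0 ≤ x →
  ∀ p0 : ℕ, p0.Prime → c * ((q.totient : ℝ) / q) * Real.log x ≤
    ∑ r ∈ (Icc 1 ⌊x ^ (1 / 6 : ℝ)⌋₊).filter (fun r => Squarefree r ∧ r.Coprime q ∧ r.Coprime p0 ∧
      (Real.log x) ^ A ≤ r.totient), 1 / (r : ℝ)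

/-- lower bound for the variance, explicit in `q` -/
def S_VARu : Prop := ∃ c : ℝ, 0 < c ∧ ∀ q a b : ℕ, 1 ≤ q → a.Coprime q → b.Coprime q →
  ¬ a ≡ b [MOD q] → ∀ A : ℕ, ∃ x0 : ℝ, ∀ x : ℝ, x0 ≤ x → ∀ h : ℕ, 1 ≤ h →
  (h : ℝ) ≤ (Real.log x) ^ A →
  c * x * h * Real.log x / q.totient ≤ ∑ y ∈ Icc 1 ⌊9 * x⌋₊, (Fh q a b x h y) ^ 2

/-- the theorem with a constant depending only on `ε` -/
def S_TIEu : Prop := ∀ ε : ℝ, 0 < ε → ∃ c : ℝ, 0 < c ∧ ∀ q a b : ℕ, 1 ≤ q → a.Coprime q →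
  b.Coprime q → ¬ a ≡ b [MOD q] → ∀ A : ℕ, ∃ N0 : ℕ, ∀ (N m : ℕ) (v : ℤ), N0 ≤ N → 1 ≤ m →
  (m : ℝ) ≤ (Real.log N) ^ A →
  c * N / (m : ℝ) ^ (2 + ε) ≤ (((Icc 1 N).filter (fun n => (m : ℤ) ≤ |Dn q a b n - v|)).card : ℝ)

end TIE
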