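import Pool.Agent.H70.TIE.HARM
import Pool.Agent.H70.TIE.Stmts2

/-!
# Project TIE, module HARMu: lower bound for the harmonic sum, explicit in `q`
-/

set_option autoImplicit false

namespace TIE
open Finset MTA

theorem HARMu (h1 : MTA.S_MSUM) (h2 : MTA.S_COPR) : S_HARMu := by
  refine ⟨1 / 72, by norm_num, fun q hq A => ?_⟩
  obtain ⟨κ, C, hκ1, -, hC, hM⟩ := h1 q hq
  have hκ : 0 < κ := by
    have h3 : (0 : ℝ) < q.totient := by exact_mod_cast Nat.totient_pos.2 hq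
    have h4 : (0 : ℝ) < q := by exact_mod_cast hq
    have h5 : 0 < (q.totient : ℝ) / q / 3 := by positivity
    linarith
  have hev : ∀ᶠ x : ℝ in Filter.atTop, (1 : ℝ) ≤ x ∧ 1 ≤ Real.log x ∧
      1 / 2 * C + 1 + Real.log 2 + 2 * A * Real.log (Real.log x) ≤ κ / 24 * Real.log x := by
    have e1 : ∀ᶠ y : ℝ in Filter.atTop, 1 / 2 * C + 1 + Real.log 2 ≤ κ / 48 * y := by
      filter_upwards [Filter.eventually_ge_atTop ((1 / 2 * C + 1 + Real.log 2) / (κ / 48))] with y hy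
      rw [div_le_iff₀ (by positivity)] at hy
      linarith
    have e2 := (Real.isLittleO_log_id_atTop).bound
      (show (0 : ℝ) < κ / 48 / (2 * A + 1) by positivity)
    have e3 : ∀ᶠ y : ℝ in Filter.atTop, 1 ≤ y ∧
        1 / 2 * C + 1 + Real.log 2 + 2 * A * Real.log y ≤ κ / 24 * y := by
      filter_upwards [e1, e2, Filter.eventually_ge_atTop (1 : ℝ)] with y y1 y2 y3
      refine ⟨y3, ?_⟩
      have hl : 0 ≤ Real.log y := Real.log_nonneg y3
      rw [Real.norm_eq_abs, abs_of_nonneg hl, id, Real.norm_eq_abs, abs_of_nonneg (by linarith),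
        div_mul_eq_mul_div, le_div_iff₀ (by positivity)] at y2
      nlinarith
    filter_upwards [Real.tendsto_log_atTop.eventually e3, Filter.eventually_ge_atTop (1 : ℝ)]
      with x hx hx1
    exact ⟨hx1, hx.1, hx.2⟩
  obtain ⟨x0, hx0⟩ := Filter.eventually_atTop.1 hev
  refine ⟨x0, fun x hx p0 hp0 => ?_⟩
  obtain ⟨hx1, hl1, hmain⟩ := hx0 x hx
  set V : ℝ := x ^ (1 / 6 : ℝ) with hV
  have hV1 : 1 ≤ V := Real.one_le_rpow hx1 (by norm_num)
  have hlV : Real.log V = Real.log x / 6 := by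
    rw [hV, Real.log_rpow (by linarith)]
    ring
  have h3 := (abs_le.1 (hM V hV1)).1
  have h4 := h2 q p0 V (fun _ => 1) hq hp0.pos hp0.squarefree (fun _ => zero_le_one)
    (fun _ _ _ _ => le_rfl)
  rw [hp0.primeFactors, prod_singleton] at h4
  have hp2 : (2 : ℝ) ≤ p0 := by exact_mod_cast hp0.two_le
  have h5 : (1 : ℝ) / 2 ≤ 1 - 1 / p0 := by
    have : (1 : ℝ) / p0 ≤ 1 / 2 := one_div_le_one_div_of_le (by norm_num) hp2
    linarith
  have hM0 : 0 ≤ Msum q V := sum_nonneg fun a _ => by positivity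
  have h6 : 1 / 2 * Msum q V ≤ ∑ a ∈ (SF q V).filter (fun a => a.Coprime p0), (1 : ℝ) / a :=
    le_trans (mul_le_mul_of_nonneg_right h5 hM0) h4
  -- split according to the size of the totient
  set T := (Icc 1 ⌊V⌋₊).filter (fun r => Squarefree r ∧ r.Coprime q ∧ r.Coprime p0 ∧
      (Real.log x) ^ A ≤ r.totient) with hT
  set Y : ℝ := 2 * (Real.log x) ^ (2 * A) with hY
  have hsub : (SF q V).filter (fun a => a.Coprime p0) ⊆ T ∪ Icc 1 ⌊Y⌋₊ := by
    intro r hr
    rw [mem_filter, SF, mem_filter] at hr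
    obtain ⟨⟨hr1, hr2, hr3⟩, hr4⟩ := hr
    rw [mem_union]
    by_cases h : (Real.log x) ^ A ≤ r.totient
    · left
      rw [hT, mem_filter]
      exact ⟨hr1, hr2, hr3, hr4, h⟩
    · right
      rw [mem_Icc] at hr1 ⊢
      refine ⟨hr1.1, Nat.le_floor ?_⟩
      refine (le_totient_sq hr2).trans ?_
      rw [hY, mul_comm 2 A, pow_mul]
      have : (r.totient : ℝ) ^ 2 ≤ ((Real.log x) ^ A) ^ 2 :=
        pow_le_pow_left₀ (Nat.cast_nonneg _) (not_le.1 h).le 2
      linarith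
  have h7 : ∑ a ∈ (SF q V).filter (fun a => a.Coprime p0), (1 : ℝ) / a ≤
      ∑ r ∈ T, (1 : ℝ) / r + ∑ r ∈ Icc 1 ⌊Y⌋₊, (1 : ℝ) / r := by
    refine (sum_le_sum_of_subset_of_nonneg hsub fun _ _ _ => by positivity).trans ?_
    rw [← sum_union_inter]
    have : 0 ≤ ∑ r ∈ T ∩ Icc 1 ⌊Y⌋₊, (1 : ℝ) / r := sum_nonneg fun _ _ => by positivity
    linarith
  have hY1 : 2 ≤ Y := by
    have : 1 ≤ (Real.log x) ^ (2 * A) := one_le_pow₀ hl1
    rw [hY]
    linarith
  have h8 : ∑ r ∈ Icc 1 ⌊Y⌋₊, (1 : ℝ) / r ≤ 1 + Real.log 2 + 2 * A * Real.log (Real.log x) := by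
    refine (harmonic_le _).trans ?_
    have h9 : Real.log (⌊Y⌋₊ : ℝ) ≤ Real.log Y := by
      refine Real.log_le_log ?_ (Nat.floor_le (by linarith))
      have : 2 ≤ ⌊Y⌋₊ := Nat.le_floor (by exact_mod_cast hY1)
      exact_mod_cast (by omega : 0 < ⌊Y⌋₊)
    have h10 : Real.log Y = Real.log 2 + 2 * A * Real.log (Real.log x) := by
      rw [hY, Real.log_mul (by norm_num) (by positivity), Real.log_pow]
      push_cast
      ring
    linarith
  have h9 : 0 ≤ Real.log x := by linarith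
  rw [hlV] at h3
  have h10 : 1 / 72 * ((q.totient : ℝ) / q) * Real.log x ≤ κ / 24 * Real.log x := by
    refine mul_le_mul_of_nonneg_right ?_ h9
    linarith
  refine h10.trans ?_
  nlinarith
end TIE
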