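import Pool.Agent.H70.TIE.TIE
import Pool.Agent.H70.TIE.Stmts2

/-!
# Project TIE, module TIEu: the theorem with a constant depending only on `ε`
-/

set_option autoImplicit false

namespace TIE
open Finset MTA Filter

theorem Dn_stepu (q a b y h : ℕ) : |((Dn q a b (y + h) - Dn q a b y : ℤ) : ℝ)| ≤ Xab q a b h y := by
  have key : ∀ c : ℕ, (((Icc 1 (y + h)).filter (fun p => p.Prime ∧ p ≡ c [MOD q])).card : ℤ) -
      (((Icc 1 y).filter (fun p => p.Prime ∧ p ≡ c [MOD q])).card : ℤ) =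
      (((Ioc y (y + h)).filter (fun p => p.Prime ∧ p ≡ c [MOD q])).card : ℤ) := by
    intro c
    have h1 : (Icc 1 (y + h)).filter (fun p => p.Prime ∧ p ≡ c [MOD q]) =
        (Icc 1 y).filter (fun p => p.Prime ∧ p ≡ c [MOD q]) ∪
          (Ioc y (y + h)).filter (fun p => p.Prime ∧ p ≡ c [MOD q]) := by
      rw [← filter_union]
      congr 1
      ext n
      rw [mem_union, mem_Icc, mem_Icc, mem_Ioc]
      omega
    have h2 : Disjoint ((Icc 1 y).filter (fun p => p.Prime ∧ p ≡ c [MOD q]))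
        ((Ioc y (y + h)).filter (fun p => p.Prime ∧ p ≡ c [MOD q])) := by
      rw [disjoint_left]
      intro n hn hn2
      rw [mem_filter, mem_Icc] at hn
      rw [mem_filter, mem_Ioc] at hn2
      omega
    rw [h1, card_union_of_disjoint h2]
    push_cast
    ring
  have hle : ∀ c : ℕ, (c = a ∨ c = b) →
      ((Ioc y (y + h)).filter (fun p => p.Prime ∧ p ≡ c [MOD q])).card ≤ Xab q a b h y := by
    intro c hc
    unfold Xab
    apply card_le_card
    intro n hn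
    rw [mem_filter] at hn ⊢
    refine ⟨hn.1, hn.2.1, ?_⟩
    rcases hc with rfl | rfl
    · exact Or.inl hn.2.2
    · exact Or.inr hn.2.2
  have e : Dn q a b (y + h) - Dn q a b y =
      (((Ioc y (y + h)).filter (fun p => p.Prime ∧ p ≡ a [MOD q])).card : ℤ) -
      (((Ioc y (y + h)).filter (fun p => p.Prime ∧ p ≡ b [MOD q])).card : ℤ) := by
    rw [← key a, ← key b]
    unfold Dn
    ring
  rw [e]
  have ha := hle a (Or.inl rfl)
  have hb := hle b (Or.inr rfl)
  rw [← Int.cast_abs]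
  have h3 : |(((Ioc y (y + h)).filter (fun p => p.Prime ∧ p ≡ a [MOD q])).card : ℤ) -
      (((Ioc y (y + h)).filter (fun p => p.Prime ∧ p ≡ b [MOD q])).card : ℤ)| ≤
      (Xab q a b h y : ℤ) := by
    rw [abs_le]
    constructor <;> omega
  exact_mod_cast h3

/-- size conditions, with a factor `φ` -/
theorem tie_evu (A : ℕ) (C0 c1 φ : ℝ) (hc1 : 0 < c1) :
    ∀ᶠ u : ℝ in atTop,
    1 ≤ Real.log (u / 10) ∧ Real.log (u / 10) ≤ Real.log u ∧
    2 * (C0 * φ) * (Real.log u) ^ (2 * A + 1) ≤ (Real.log (u / 10)) ^ (2 * A + 3) ∧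
    (Real.log (u / 10)) ^ (2 * A + 3) ≤ u / 20 ∧ 36 ≤ c1 * (Real.log (u / 10)) ^ 2 :=
  tie_ev A (C0 * φ) c1 hc1

theorem TIEuthm (h1 : S_VARu) (h2 : S_MOMu) (h3 : S_LIP) : S_TIEu := by
  intro ε hε
  obtain ⟨c1, hc1, hV⟩ := h1
  set j : ℕ := ⌈2 / ε⌉₊ + 1 with hj
  have hj1 : 1 ≤ j := by omega
  have hj0 : (0 : ℝ) < j := by exact_mod_cast hj1
  have hjε : 2 / (j : ℝ) ≤ ε := by
    rw [div_le_iff₀ hj0]
    have h4 : 2 / ε ≤ ⌈2 / ε⌉₊ := Nat.le_ceil _
    rw [div_le_iff₀ hε] at h4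
    rw [hj]
    push_cast
    nlinarith
  obtain ⟨C2, hC2, hM⟩ := h2 (2 * j + 2) (by omega)
  set C0 : ℝ := max 1 (2304 / c1) with hC0
  have hC01 : 1 ≤ C0 := le_max_left _ _
  have hC02 : 2304 ≤ c1 * C0 := by
    have : 2304 / c1 ≤ C0 := le_max_right _ _
    rw [div_le_iff₀ hc1] at this
    linarith
  set B : ℝ := max 1 (640 * C2 * 2 ^ (2 * j + 2) / c1) with hB
  have hB1 : 1 ≤ B := le_max_left _ _
  have hB2 : 640 * C2 * 2 ^ (2 * j + 2) ≤ c1 * B := by
    have : 640 * C2 * 2 ^ (2 * j + 2) / c1 ≤ B := le_max_right _ _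
    rw [div_le_iff₀ hc1] at this
    linarith
  have hB0 : 0 < B := by linarith
  refine ⟨c1 / (640 * B ^ 2 * C0 ^ 2), by positivity, fun q a b hq ha hb hab A => ?_⟩
  have hφN : 1 ≤ q.totient := Nat.totient_pos.2 hq
  have hφ1 : (1 : ℝ) ≤ q.totient := by exact_mod_cast hφN
  have hφ0 : (0 : ℝ) < q.totient := by linarith
  obtain ⟨N1, hM⟩ := hM q hq
  obtain ⟨xV, hV⟩ := hV q a b hq ha hb hab (2 * A + 3)
  obtain ⟨xL, hL⟩ := h3 (2 * A + 3)
  obtain ⟨u0, hu0⟩ := eventually_atTop.1 (tie_evu A C0 c1 q.totient hc1)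
  refine ⟨max N1 ⌈max (max 10 u0) (10 * max xV xL)⌉₊, fun N m v hN hm1 hmA => ?_⟩
  rw [max_le_iff, Nat.ceil_le, max_le_iff, max_le_iff] at hN
  obtain ⟨hN1, ⟨hN10, hNu⟩, hNx⟩ := hN
  obtain ⟨hl1, hlL, hhA, hl20, hl36⟩ := hu0 N hNu
  set L : ℝ := Real.log N with hLdef
  set x : ℝ := (N : ℝ) / 10 with hx
  set l : ℝ := Real.log x with hldef
  have hxV : xV ≤ x := by
    have : xV ≤ max xV xL := le_max_left _ _
    rw [hx]
    linarith
  have hxL : xL ≤ x := by
    have : xL ≤ max xV xL := le_max_right _ _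
    rw [hx]
    linarith
  have hx0 : 0 < x := by
    rw [hx]
    linarith
  have hm0 : (1 : ℝ) ≤ m := by exact_mod_cast hm1
  have hL1 : 1 ≤ L := hl1.trans hlL
  -- the parameters
  set lam : ℝ := C0 * (m : ℝ) ^ 2 with hlam
  have hm2 : (1 : ℝ) ≤ (m : ℝ) ^ 2 := one_le_pow₀ hm0
  have hlam1 : 1 ≤ lam := one_le_mul_of_one_le_of_one_le hC01 hm2
  have hlam0 : 0 < lam := by linarith
  set φ : ℝ := (q.totient : ℝ) with hφdef
  set h : ℕ := ⌈lam * (φ * L)⌉₊ with hh
  have hφL1 : 1 ≤ φ * L := one_le_mul_of_one_le_of_one_le hφ1 hL1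
  have hhlow : lam * (φ * L) ≤ h := Nat.le_ceil _
  have hlamL : 1 ≤ lam * (φ * L) := one_le_mul_of_one_le_of_one_le hlam1 hφL1
  have hhup : (h : ℝ) ≤ 2 * lam * (φ * L) := by
    have : (h : ℝ) < lam * (φ * L) + 1 := Nat.ceil_lt_add_one (by positivity)
    linarith
  have hh1 : 1 ≤ h := by
    have : (1 : ℝ) ≤ h := hlamL.trans hhlow
    exact_mod_cast this
  have hhl : (h : ℝ) ≤ l ^ (2 * A + 3) := by
    refine hhup.trans (le_trans ?_ hhA)
    have h4 : (m : ℝ) ^ 2 ≤ (L ^ A) ^ 2 := pow_le_pow_left₀ (by positivity) hmA 2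
    rw [← pow_mul, mul_comm A 2] at h4
    calc 2 * lam * (φ * L) = 2 * (C0 * φ) * ((m : ℝ) ^ 2 * L) := by
          rw [hlam]
          ring
      _ ≤ 2 * (C0 * φ) * (L ^ (2 * A) * L) := by
          refine mul_le_mul_of_nonneg_left ?_ (by positivity)
          exact mul_le_mul_of_nonneg_right h4 (by linarith)
      _ = 2 * (C0 * φ) * L ^ (2 * A + 1) := by rw [pow_succ]
  set M : ℕ := ⌊9 * x⌋₊ with hMdef
  have hMx : (M : ℝ) ≤ 9 * x := Nat.floor_le (by positivity)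
  have hMh : M + h ≤ N := by
    have h4 : (M : ℝ) + h ≤ N := by
      have h5 : 9 * x = 9 / 10 * N := by
        rw [hx]
        ring
      linarith
    exact_mod_cast h4
  have hMN : M ≤ N := by omega
  -- the variance
  set Δ : ℕ → ℝ := fun y => |((Dn q a b (y + h) - Dn q a b y : ℤ) : ℝ)| with hΔ
  set V : ℝ := ∑ y ∈ Icc 1 M, Δ y ^ 2 with hVdef
  have s1 : c1 * x * h * l / φ ≤ 8 * l ^ 2 * V + 18 * x := by
    refine (hV x hxV h hh1 hhl).trans ?_
    calc ∑ y ∈ Icc 1 M, (Fh q a b x h y) ^ 2 ≤ ∑ y ∈ Icc 1 M, (8 * l ^ 2 * Δ y ^ 2 + 2) := by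
          refine sum_le_sum fun y hy => ?_
          rw [mem_Icc] at hy
          have hyx : (y : ℝ) ≤ 9 * x := le_trans (by exact_mod_cast hy.2) hMx
          have h4 := hL x hxL q a b h y hh1 hhl hyx
          have h5 : |Fh q a b x h y| ^ 2 ≤ (2 * l * Δ y + 1) ^ 2 :=
            pow_le_pow_left₀ (abs_nonneg _) h4 2
          rw [sq_abs] at h5
          have h6 : 0 ≤ (2 * l * Δ y - 1) ^ 2 := sq_nonneg _
          nlinarith
      _ = 8 * l ^ 2 * V + 2 * M := by
          rw [sum_add_distrib, ← mul_sum]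
          simp only [sum_const, Nat.card_Icc, Nat.add_sub_cancel, nsmul_eq_mul]
          ring
      _ ≤ _ := by linarith
  have s2 : c1 * x * lam ≤ 16 * V := by
    have h6 : c1 * x * lam * l * l ≤ c1 * x * h * l / φ := by
      rw [le_div_iff₀ hφ0]
      have h7 : lam * (φ * l) ≤ h := by
        refine le_trans ?_ hhlow
        have h8 : φ * l ≤ φ * L := mul_le_mul_of_nonneg_left hlL hφ0.le
        exact mul_le_mul_of_nonneg_left h8 hlam0.le
      have h8 : c1 * x * (lam * (φ * l)) * l ≤ c1 * x * h * l := by gcongr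
      linarith
    have h4 : 36 * x ≤ c1 * x * h * l / φ := by
      refine le_trans ?_ h6
      have h7 : 36 * x ≤ c1 * l ^ 2 * x := mul_le_mul_of_nonneg_right hl36 hx0.le
      have h8 : c1 * l ^ 2 * x * 1 ≤ c1 * l ^ 2 * x * lam :=
        mul_le_mul_of_nonneg_left hlam1 (by positivity)
      have h9 : c1 * x * lam * l * l = c1 * l ^ 2 * x * lam := by ring
      linarith
    have h5 : c1 * x * h * l / φ ≤ 16 * l ^ 2 * V := by linarith
    have h7 : l ^ 2 * (c1 * x * lam) ≤ l ^ 2 * (16 * V) := by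
      have h8 : l ^ 2 * (c1 * x * lam) = c1 * x * lam * l * l := by ring
      rw [h8]
      linarith
    exact le_of_mul_le_mul_left h7 (by positivity)
  -- the exceptional set
  set E := (Icc 1 M).filter (fun y => 2 * (m : ℝ) ≤ |((Dn q a b (y + h) - Dn q a b y : ℤ) : ℝ)|)
    with hE
  set p : ℝ := (2 * j + 1) / (2 * j) with hp
  set T : ℝ := B * lam ^ p with hT
  have hT0 : 0 < T := by positivity
  have hTj : T ^ (2 * j) = B ^ (2 * j) * lam ^ (2 * j + 1) := by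
    rw [hT, mul_pow]
    congr 1
    rw [← Real.rpow_natCast, ← Real.rpow_mul hlam0.le, ← Real.rpow_natCast]
    congr 1
    rw [hp]
    push_cast
    field_simp
  have hT2 : T ^ 2 = B ^ 2 * (lam * lam ^ (1 + 1 / (j : ℝ))) := by
    rw [hT, mul_pow]
    congr 1
    rw [← Real.rpow_natCast, ← Real.rpow_mul hlam0.le]
    nth_rewrite 2 [← Real.rpow_one lam]
    rw [← Real.rpow_add hlam0]
    congr 1
    rw [hp]
    push_cast
    field_simp
    ring
  have s3 : V ≤ 4 * (m : ℝ) ^ 2 * M + ∑ y ∈ E, Δ y ^ 2 := by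
    rw [hVdef, ← sum_filter_add_sum_filter_not (Icc 1 M)
      (fun y => 2 * (m : ℝ) ≤ |((Dn q a b (y + h) - Dn q a b y : ℤ) : ℝ)|)]
    have h4 : ∑ y ∈ (Icc 1 M).filter (fun y => ¬ 2 * (m : ℝ) ≤
        |((Dn q a b (y + h) - Dn q a b y : ℤ) : ℝ)|), Δ y ^ 2 ≤ 4 * (m : ℝ) ^ 2 * M := by
      have h5 : ∀ y ∈ (Icc 1 M).filter (fun y => ¬ 2 * (m : ℝ) ≤
          |((Dn q a b (y + h) - Dn q a b y : ℤ) : ℝ)|), Δ y ^ 2 ≤ 4 * (m : ℝ) ^ 2 := by
        intro y hy
        rw [mem_filter, not_le] at hy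
        have h6 := pow_le_pow_left₀ (abs_nonneg _) hy.2.le 2
        calc Δ y ^ 2 ≤ (2 * (m : ℝ)) ^ 2 := h6
          _ = 4 * (m : ℝ) ^ 2 := by ring
      refine (sum_le_card_nsmul _ _ _ h5).trans ?_
      rw [nsmul_eq_mul, mul_comm]
      refine mul_le_mul_of_nonneg_left ?_ (by positivity)
      have h6 := card_filter_le (Icc 1 M) (fun y => ¬ 2 * (m : ℝ) ≤
        |((Dn q a b (y + h) - Dn q a b y : ℤ) : ℝ)|)
      rw [Nat.card_Icc, Nat.add_sub_cancel] at h6
      exact_mod_cast h6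
    linarith
  have s4 : ∑ y ∈ E, Δ y ^ 2 ≤ (E.card : ℝ) * T ^ 2 +
      C2 * (10 * x) * (2 * lam) ^ (2 * j + 2) / T ^ (2 * j) := by
    have h4 : ∀ y ∈ E, Δ y ^ 2 ≤ T ^ 2 + (Xab q a b h y : ℝ) ^ (2 * j + 2) / T ^ (2 * j) := by
      intro y _
      have h5 : Δ y ≤ Xab q a b h y := Dn_stepu q a b y h
      exact (pow_le_pow_left₀ (abs_nonneg _) h5 2).trans
        (sq_le_trunc _ T j (Nat.cast_nonneg _) hT0)
    refine (sum_le_sum h4).trans ?_
    rw [sum_add_distrib, sum_const, nsmul_eq_mul, ← sum_div]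
    have h5 : ∑ y ∈ E, (Xab q a b h y : ℝ) ^ (2 * j + 2) ≤
        C2 * (10 * x) * (2 * lam) ^ (2 * j + 2) := by
      have h6 := hM a b N h hN1 (by
        refine le_trans ?_ hhlow
        rw [← hLdef]
        nlinarith)
      calc ∑ y ∈ E, (Xab q a b h y : ℝ) ^ (2 * j + 2) ≤
            ∑ y ∈ Icc 1 N, (Xab q a b h y : ℝ) ^ (2 * j + 2) := by
            refine sum_le_sum_of_subset_of_nonneg ?_ fun _ _ _ => by positivity
            intro y hy
            rw [hE, mem_filter, mem_Icc] at hy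
            rw [mem_Icc]
            omega
        _ ≤ C2 * N * (h / (q.totient * Real.log N)) ^ (2 * j + 2) := h6
        _ ≤ C2 * (10 * x) * (2 * lam) ^ (2 * j + 2) := by
            have h7 : (N : ℝ) = 10 * x := by
              rw [hx]
              ring
            rw [← hLdef]
            have h8 : (h : ℝ) / (φ * L) ≤ 2 * lam := by
              rw [div_le_iff₀ (by linarith)]
              exact hhup
            have h9 : ((h : ℝ) / (φ * L)) ^ (2 * j + 2) ≤ (2 * lam) ^ (2 * j + 2) :=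
              pow_le_pow_left₀ (by positivity) h8 _
            rw [← h7]
            exact mul_le_mul_of_nonneg_left h9 (by positivity)
    have h6 := div_le_div_of_nonneg_right h5 (show 0 ≤ T ^ (2 * j) by positivity)
    linarith
  have s5 : C2 * (10 * x) * (2 * lam) ^ (2 * j + 2) / T ^ (2 * j) ≤ c1 * x * lam / 64 := by
    rw [hTj, div_le_iff₀ (by positivity)]
    have hBj : B ≤ B ^ (2 * j) := by
      calc B = B ^ 1 := (pow_one B).symm
        _ ≤ B ^ (2 * j) := pow_le_pow_right₀ hB1 (by omega)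
    have h4 : C2 * (10 * x) * (2 * lam) ^ (2 * j + 2) =
        (640 * C2 * 2 ^ (2 * j + 2)) * (x * lam ^ (2 * j + 2) / 64) := by
      rw [mul_pow]
      ring
    have h5 : c1 * x * lam / 64 * (B ^ (2 * j) * lam ^ (2 * j + 1)) =
        (c1 * B ^ (2 * j)) * (x * lam ^ (2 * j + 2) / 64) := by
      have : lam ^ (2 * j + 2) = lam ^ (2 * j + 1) * lam := by rw [← pow_succ]
      rw [this]
      ring
    rw [h4, h5]
    refine mul_le_mul_of_nonneg_right ?_ (by positivity)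
    exact hB2.trans (mul_le_mul_of_nonneg_left hBj hc1.le)
  have s6 : 4 * (m : ℝ) ^ 2 * M ≤ c1 * x * lam / 64 := by
    have h4 : 4 * (m : ℝ) ^ 2 * M ≤ 4 * (m : ℝ) ^ 2 * (9 * x) :=
      mul_le_mul_of_nonneg_left hMx (by positivity)
    have h5 : c1 * x * lam / 64 = (c1 * C0) * ((m : ℝ) ^ 2 * x / 64) := by
      rw [hlam]
      ring
    have h6 : 2304 * ((m : ℝ) ^ 2 * x / 64) ≤ (c1 * C0) * ((m : ℝ) ^ 2 * x / 64) :=
      mul_le_mul_of_nonneg_right hC02 (by positivity)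
    rw [h5]
    linarith
  have s7 : c1 * x * lam / 32 ≤ (E.card : ℝ) * T ^ 2 := by linarith
  have s8 : c1 * x / 32 ≤ (E.card : ℝ) * (B ^ 2 * lam ^ (1 + 1 / (j : ℝ))) := by
    rw [hT2] at s7
    have h4 : lam * (c1 * x / 32) ≤ lam * ((E.card : ℝ) * (B ^ 2 * lam ^ (1 + 1 / (j : ℝ)))) := by
      linarith
    exact le_of_mul_le_mul_left h4 hlam0
  have s9 : lam ^ (1 + 1 / (j : ℝ)) ≤ C0 ^ 2 * (m : ℝ) ^ (2 + ε) := by
    rw [hlam, Real.mul_rpow (by linarith) (by positivity)]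
    refine mul_le_mul ?_ ?_ (by positivity) (by positivity)
    · rw [← Real.rpow_natCast C0 2]
      refine Real.rpow_le_rpow_of_exponent_le hC01 ?_
      have : 1 / (j : ℝ) ≤ 1 := by
        rw [div_le_one hj0]
        exact_mod_cast hj1
      push_cast
      linarith
    · rw [← Real.rpow_natCast (m : ℝ) 2, ← Real.rpow_mul (by positivity)]
      refine Real.rpow_le_rpow_of_exponent_le hm0 ?_
      push_cast
      have : 2 * (1 + 1 / (j : ℝ)) = 2 + 2 / j := by ring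
      rw [this]
      linarith
  have s10 := card_E q a b M N h m v hMh
  rw [← hE] at s10
  set Tg : ℝ := (((Icc 1 N).filter (fun n => (m : ℤ) ≤ |Dn q a b n - v|)).card : ℝ) with hTg
  have s11 : c1 * x / 32 ≤ (2 * Tg) * (B ^ 2 * (C0 ^ 2 * (m : ℝ) ^ (2 + ε))) := by
    refine s8.trans (mul_le_mul s10 ?_ (by positivity) (by positivity))
    exact mul_le_mul_of_nonneg_left s9 (by positivity)
  rw [div_mul_eq_mul_div, div_div, div_le_iff₀ (by positivity)]
  have h7 : (N : ℝ) = 10 * x := by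
    rw [hx]
    ring
  rw [h7]
  have h8 : Tg * (640 * B ^ 2 * C0 ^ 2 * (m : ℝ) ^ (2 + ε)) =
      320 * ((2 * Tg) * (B ^ 2 * (C0 ^ 2 * (m : ℝ) ^ (2 + ε)))) := by ring
  rw [h8]
  linarith

end TIE
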