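import Pool.Agent.H70.TIE.VAR
import Pool.Agent.H70.TIE.Stmts2

/-!
# Project TIE, module VARu: lower bound for the variance, explicit in `q`
-/

set_option autoImplicit false

namespace TIE
open Finset MTA

/-- the points `s/r + k/q` are separated -/
theorem sep_points {q R : ℕ} (hq : 1 ≤ q) {k k' r r' s s' : ℕ} (hk : k < q) (hk' : k' < q)
    (hr : 1 ≤ r) (hr' : 1 ≤ r') (hrR : r ≤ R) (hrR' : r' ≤ R) (hrq : r.Coprime q)
    (hrq' : r'.Coprime q) (hs : s ∈ RR r) (hs' : s' ∈ RR r') (hne : ¬ (k = k' ∧ r = r' ∧ s = s'))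
    (m : ℤ) : 1 / ((q : ℝ) * (R : ℝ) ^ 2) ≤ |((s : ℝ) / r + k / q) - (s' / r' + k' / q) - m| := by
  rw [RR, mem_filter, mem_range] at hs hs'
  have hq0 : (0 : ℝ) < q := by exact_mod_cast hq
  have hr0 : (0 : ℝ) < r := by exact_mod_cast hr
  have hr0' : (0 : ℝ) < r' := by exact_mod_cast hr'
  set Z : ℤ := q * r' * s + k * r * r' - q * r * s' - k' * r * r' - m * q * r * r' with hZ
  have hZr : ((s : ℝ) / r + k / q) - (s' / r' + k' / q) - m = (Z : ℝ) / (q * r * r') := by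
    rw [hZ]
    push_cast
    field_simp
    ring
  have hZ0 : Z ≠ 0 := by
    intro h0
    apply hne
    rw [hZ] at h0
    -- `q ∣ k - k'`
    have h1 : (q : ℤ) ∣ ((r * r' : ℕ) : ℤ) * (k - k') := by
      refine ⟨-(r' * s - r * s' - m * r * r'), ?_⟩
      push_cast
      linarith
    have h2 : IsCoprime (q : ℤ) ((r * r' : ℕ) : ℤ) := by
      rw [Nat.isCoprime_iff_coprime]
      exact (Nat.Coprime.mul_left hrq hrq').symm
    have h3 : (q : ℤ) ∣ (k : ℤ) - k' := h2.dvd_of_dvd_mul_left h1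
    have h4 : k = k' := by
      have h5 : (k : ℤ) ≡ k' [ZMOD q] := (Int.modEq_iff_dvd.2 (by
        have := h3
        rwa [← dvd_neg, neg_sub] at this))
      have h6 : k ≡ k' [MOD q] := by exact_mod_cast h5
      have := h6
      unfold Nat.ModEq at this
      rwa [Nat.mod_eq_of_lt hk, Nat.mod_eq_of_lt hk'] at this
    subst h4
    have h5 : (q : ℤ) * (r' * s - r * s' - m * r * r') = 0 := by linarith
    have h6 : (r' : ℤ) * s - r * s' - m * r * r' = 0 := by
      rcases mul_eq_zero.1 h5 with h | h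
      · exfalso
        have : q = 0 := by exact_mod_cast h
        omega
      · exact h
    have h7 : r = r' := by
      apply Nat.dvd_antisymm
      · have h8 : (r : ℤ) ∣ r' * s := ⟨s' + m * r', by linarith⟩
        have h9 : r ∣ r' * s := by exact_mod_cast h8
        exact (Nat.Coprime.symm hs.2).dvd_of_dvd_mul_right h9
      · have h8 : (r' : ℤ) ∣ r * s' := ⟨s - m * r, by linarith⟩
        have h9 : r' ∣ r * s' := by exact_mod_cast h8
        exact (Nat.Coprime.symm hs'.2).dvd_of_dvd_mul_right h9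
    subst h7
    refine ⟨rfl, rfl, ?_⟩
    have h8 : (r : ℤ) * (s - s' - m * r) = 0 := by linarith
    have h9 : (s : ℤ) - s' - m * r = 0 := by
      rcases mul_eq_zero.1 h8 with h | h
      · exfalso
        have : r = 0 := by exact_mod_cast h
        omega
      · exact h
    have h10 : (s : ℤ) ≡ s' [ZMOD r] := (Int.modEq_iff_dvd.2 ⟨-m, by linarith⟩)
    have h11 : s ≡ s' [MOD r] := by exact_mod_cast h10
    unfold Nat.ModEq at h11
    rwa [Nat.mod_eq_of_lt hs.1, Nat.mod_eq_of_lt hs'.1] at h11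
  rw [hZr, abs_div, abs_of_pos (show (0 : ℝ) < q * r * r' by positivity)]
  have h1 : (1 : ℝ) ≤ |(Z : ℝ)| := by
    have : 1 ≤ |Z| := Int.one_le_abs hZ0
    exact_mod_cast this
  refine div_le_div₀ (abs_nonneg _) h1 (by positivity) ?_
  have h2 : (r : ℝ) ≤ R := by exact_mod_cast hrR
  have h3 : (r' : ℝ) ≤ R := by exact_mod_cast hrR'
  calc (q : ℝ) * r * r' ≤ q * R * R := by gcongr
    _ = q * R ^ 2 := by ring

theorem sum_kappa {q a b : ℕ} (hq : 1 ≤ q) (hab : ¬ a ≡ b [MOD q]) :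
    ∑ k ∈ range q, ‖ee (a * (k / q)) - ee (b * (k / q))‖ ^ 2 = 2 * q := by
  have h1 : ∀ k : ℕ, ‖ee (a * ((k : ℝ) / q)) - ee (b * (k / q))‖ ^ 2 =
      2 - 2 * ((ee (((a : ℝ) - b) / q)) ^ k).re := by
    intro k
    have h2 : (((‖ee (a * ((k : ℝ) / q)) - ee (b * (k / q))‖ ^ 2 : ℝ)) : ℂ) =
        (ee (a * ((k : ℝ) / q)) - ee (b * (k / q))) *
          (starRingEnd ℂ) (ee (a * ((k : ℝ) / q)) - ee (b * (k / q))) := by
      rw [Complex.mul_conj, Complex.normSq_eq_norm_sq]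
    have h3 : ∀ n : ℕ, ee (((a : ℝ) - b) / q) ^ n = ee (((a : ℝ) - b) / q * n) := by
      intro n
      induction n with
      | zero => simp [ee_zero]
      | succ n ih =>
        rw [pow_succ, ih, ← ee_addB]
        congr 1
        push_cast
        ring
    have h4 : (ee (a * ((k : ℝ) / q)) - ee (b * (k / q))) *
          (starRingEnd ℂ) (ee (a * ((k : ℝ) / q)) - ee (b * (k / q))) =
        2 - ee (((a : ℝ) - b) / q) ^ k - (starRingEnd ℂ) (ee (((a : ℝ) - b) / q) ^ k) := by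
      rw [h3, map_sub, ← ee_neg, ← ee_neg, ← ee_neg, sub_mul, mul_sub, mul_sub, ← ee_addB, ← ee_addB,
        ← ee_addB, ← ee_addB]
      rw [show (a : ℝ) * (k / q) + -(a * (k / q)) = 0 by ring,
        show (b : ℝ) * (k / q) + -(b * (k / q)) = 0 by ring, ee_zero,
        show (a : ℝ) * (k / q) + -(b * (k / q)) = ((a : ℝ) - b) / q * k by ring,
        show (b : ℝ) * (k / q) + -(a * (k / q)) = -(((a : ℝ) - b) / q * k) by ring]
      ring
    have h5 := congrArg Complex.re (h2.trans h4)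
    rw [Complex.ofReal_re] at h5
    rw [h5]
    simp only [Complex.sub_re, Complex.conj_re]
    norm_num
    ring
  rw [sum_congr rfl fun k _ => h1 k, sum_sub_distrib, ← mul_sum, ← Complex.re_sum]
  have hq0 : (q : ℝ) ≠ 0 := by
    have : (0 : ℝ) < q := by exact_mod_cast hq
    exact this.ne'
  have hz1 : ee (((a : ℝ) - b) / q) ≠ 1 := by
    intro h
    have h2 := kappa_ne hq hab
    apply h2
    have h3 : ee ((a : ℝ) / q) = ee (((a : ℝ) - b) / q) * ee (b / q) := by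
      rw [← ee_addB]
      congr 1
      ring
    rw [h3, h, one_mul, sub_self]
  have hzq : ee (((a : ℝ) - b) / q) ^ q = 1 := by
    have h3 : ∀ n : ℕ, ee (((a : ℝ) - b) / q) ^ n = ee (((a : ℝ) - b) / q * n) := by
      intro n
      induction n with
      | zero => simp [ee_zero]
      | succ n ih =>
        rw [pow_succ, ih, ← ee_addB]
        congr 1
        push_cast
        ring
    rw [h3]
    have h4 : ((a : ℝ) - b) / q * q = (((a : ℤ) - b : ℤ) : ℝ) := by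
      push_cast
      field_simp
    rw [h4, ee_intCast]
  have hg := geom_sum_eq hz1 q
  rw [hzq, sub_self, zero_div] at hg
  rw [hg]
  simp
  ring

/-- main term of the dual sum for one `k` -/
theorem Sk_main {x : ℝ} {q a b h k A : ℕ} {T : Finset ℕ} {p0 : ℕ} (hq : 1 ≤ q)
    (hS : ∀ r ∈ T, ‖(∑ s ∈ RR r, ((‖Dh h (s / r + k / q)‖ ^ 2 : ℝ) : ℂ) *
        fhat q a b x (s / r + k / q)) -
      (ee (a * (k / q)) - ee (b * (k / q))) * ((TH 1 x * (ArithmeticFunction.moebius r : ℤ) /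
        (q.totient * r.totient) * ∑ s ∈ RR r, ‖Dh h (s / r + k / q)‖ ^ 2 : ℝ) : ℂ)‖ ≤
      2 * (h : ℝ) ^ 2 * (r * r.divisors.card) * Emax 1 x (q * r))
    (hT : ∀ r ∈ T, 1 ≤ r ∧ r ≤ ⌊x ^ (1 / 6 : ℝ)⌋₊ ∧ Squarefree r ∧ r.Coprime p0)
    (hBV : ∑ q' ∈ (Icc 1 ⌊x ^ (1 / 6 : ℝ)⌋₊).filter (fun q' => Squarefree q' ∧ q'.Coprime p0),
      ((4 : ℕ) : ℝ) ^ q'.primeFactors.card * Emax 1 x (q * q') ≤ x / (Real.log x) ^ A) :
    ‖(∑ r ∈ T, (((ArithmeticFunction.moebius r : ℤ) : ℂ) / (r.totient : ℂ)) *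
      ∑ s ∈ RR r, ((‖Dh h (s / r + k / q)‖ ^ 2 : ℝ) : ℂ) * fhat q a b x (s / r + k / q)) -
      (ee (a * (k / q)) - ee (b * (k / q))) * ((TH 1 x / q.totient *
        ∑ r ∈ T, (∑ s ∈ RR r, ‖Dh h (s / r + k / q)‖ ^ 2) / (r.totient : ℝ) ^ 2 : ℝ) : ℂ)‖ ≤
      2 * (h : ℝ) ^ 2 * (x / (Real.log x) ^ A) := by
  have hφq : (0 : ℝ) < q.totient := by exact_mod_cast Nat.totient_pos.2 hq
  have hφ : ∀ r ∈ T, (0 : ℝ) < r.totient := by
    intro r hr
    exact_mod_cast Nat.totient_pos.2 (hT r hr).1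
  have hmu : ∀ r ∈ T, ((ArithmeticFunction.moebius r : ℤ) : ℝ) ^ 2 = 1 := by
    intro r hr
    have := ArithmeticFunction.moebius_sq_eq_one_of_squarefree (hT r hr).2.2.1
    exact_mod_cast this
  have hmuabs : ∀ r ∈ T, ‖((ArithmeticFunction.moebius r : ℤ) : ℂ)‖ = 1 := by
    intro r hr
    have h8 := hmu r hr
    have h9 : ‖((ArithmeticFunction.moebius r : ℤ) : ℂ)‖ = |((ArithmeticFunction.moebius r : ℤ) : ℝ)| := by
      rw [Complex.norm_intCast]
    rw [h9, ← Real.sqrt_sq_eq_abs, h8, Real.sqrt_one]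
  set κ : ℂ := ee (a * (k / q)) - ee (b * (k / q)) with hκ
  have h9 : κ * ((TH 1 x / q.totient *
        ∑ r ∈ T, (∑ s ∈ RR r, ‖Dh h (s / r + k / q)‖ ^ 2) / (r.totient : ℝ) ^ 2 : ℝ) : ℂ) =
      ∑ r ∈ T, (((ArithmeticFunction.moebius r : ℤ) : ℂ) / (r.totient : ℂ)) *
        (κ * ((TH 1 x * (ArithmeticFunction.moebius r : ℤ) /
          (q.totient * r.totient) * ∑ s ∈ RR r, ‖Dh h (s / r + k / q)‖ ^ 2 : ℝ) : ℂ)) := by
    rw [mul_sum, Complex.ofReal_sum, mul_sum]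
    refine sum_congr rfl fun r hr => ?_
    have h10 : (((ArithmeticFunction.moebius r : ℤ) : ℂ)) ^ 2 = 1 := by
      have := hmu r hr
      exact_mod_cast this
    have h11 : (r.totient : ℂ) ≠ 0 := by exact_mod_cast (hφ r hr).ne'
    have h12 : (q.totient : ℂ) ≠ 0 := by exact_mod_cast hφq.ne'
    set X : ℂ := ((∑ s ∈ RR r, ‖Dh h (s / r + k / q)‖ ^ 2 : ℝ) : ℂ) with hX
    have e1 : ((TH 1 x / q.totient * ((∑ s ∈ RR r, ‖Dh h (s / r + k / q)‖ ^ 2) /
        (r.totient : ℝ) ^ 2) : ℝ) : ℂ) = (TH 1 x : ℂ) / q.totient * (X / (r.totient : ℂ) ^ 2) := by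
      rw [hX]
      push_cast
      ring
    have e2 : ((TH 1 x * (ArithmeticFunction.moebius r : ℤ) /
          (q.totient * r.totient) * ∑ s ∈ RR r, ‖Dh h (s / r + k / q)‖ ^ 2 : ℝ) : ℂ) =
        (TH 1 x : ℂ) * ((ArithmeticFunction.moebius r : ℤ) : ℂ) / (q.totient * r.totient) * X := by
      rw [hX]
      push_cast
      ring
    rw [e1, e2]
    field_simp
    rw [h10]
    ring
  rw [h9, ← sum_sub_distrib]
  refine (norm_sum_le _ _).trans ?_
  have h10 : ∀ r ∈ T, ‖(((ArithmeticFunction.moebius r : ℤ) : ℂ) / (r.totient : ℂ)) *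
      (∑ s ∈ RR r, ((‖Dh h (s / r + k / q)‖ ^ 2 : ℝ) : ℂ) * fhat q a b x (s / r + k / q)) -
      (((ArithmeticFunction.moebius r : ℤ) : ℂ) / (r.totient : ℂ)) *
        (κ * ((TH 1 x * (ArithmeticFunction.moebius r : ℤ) /
          (q.totient * r.totient) * ∑ s ∈ RR r, ‖Dh h (s / r + k / q)‖ ^ 2 : ℝ) : ℂ))‖ ≤
      2 * (h : ℝ) ^ 2 * ((4 : ℝ) ^ r.primeFactors.card * Emax 1 x (q * r)) := by
    intro r hr
    obtain ⟨hr1, hrR, hrs, hrp⟩ := hT r hr
    have h11 := hS r hr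
    rw [← mul_sub, norm_mul, norm_div, hmuabs r hr, Complex.norm_natCast]
    have h12 := sqfree_ratio hrs
    have h13 := Emax_nonneg 1 x (q * r)
    have h14 := hφ r hr
    calc 1 / (r.totient : ℝ) * _ ≤ 1 / (r.totient : ℝ) *
          (2 * (h : ℝ) ^ 2 * (r * r.divisors.card) * Emax 1 x (q * r)) :=
          mul_le_mul_of_nonneg_left h11 (by positivity)
      _ = 2 * (h : ℝ) ^ 2 * ((1 / (r.totient : ℝ) * (r * r.divisors.card)) *
          Emax 1 x (q * r)) := by ring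
      _ ≤ _ := by
          refine mul_le_mul_of_nonneg_left ?_ (by positivity)
          exact mul_le_mul_of_nonneg_right h12 h13
  refine (sum_le_sum h10).trans ?_
  rw [← mul_sum]
  refine mul_le_mul_of_nonneg_left ?_ (by positivity)
  refine le_trans ?_ hBV
  have h11 : ((4 : ℕ) : ℝ) = 4 := by norm_num
  rw [h11]
  refine sum_le_sum_of_subset_of_nonneg ?_ ?_
  · intro r hr
    obtain ⟨hr1, hrR, hrs, hrp⟩ := hT r hr
    rw [mem_filter, mem_Icc]
    exact ⟨⟨hr1, hrR⟩, hrs, hrp⟩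
  · intro r _ _
    exact mul_nonneg (by positivity) (Emax_nonneg _ _ _)

theorem VARu (h1 : MTA.S_LSG) (h2 : MTA.S_CHE) (h3 : S_BVTx) (h4 : S_VR) (h5 : S_FD) (h6 : S_S1k)
    (h7 : S_HARMu) : S_VARu := by
  obtain ⟨C, hC, hL⟩ := h1
  obtain ⟨c1, C1, hc1, -, hT⟩ := h2
  obtain ⟨xT, hT⟩ := hT 1 le_rfl
  obtain ⟨cH, hcH, hH⟩ := h7
  obtain ⟨xS, hS⟩ := h6
  refine ⟨c1 ^ 2 * cH / (40 * C), by positivity, fun q a b hq ha hb hab A => ?_⟩
  have hφq : (0 : ℝ) < q.totient := by exact_mod_cast Nat.totient_pos.2 hq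
  have hq0 : (0 : ℝ) < q := by exact_mod_cast hq
  obtain ⟨xB, hB⟩ := h3 (2 * A + 1) 4 q hq
  obtain ⟨xF, hF⟩ := h5 A
  obtain ⟨xH, hH⟩ := hH q hq (3 * A + 1)
  -- eventual conditions
  have hev : ∀ᶠ x : ℝ in Filter.atTop, 3 ≤ x ∧ 2 ≤ Real.log x ∧ q * (x ^ (1 / 6 : ℝ)) ^ 2 ≤ x ∧
      8 * q ≤ c1 * cH * (Real.log x) ^ 2 := by
    have e1 : ∀ᶠ y : ℝ in Filter.atTop, 2 ≤ y ∧ 8 * q ≤ c1 * cH * y ^ 2 := by
      filter_upwards [Filter.eventually_ge_atTop (2 : ℝ),
        Filter.eventually_ge_atTop (8 * q / (c1 * cH))] with y y1 y2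
      refine ⟨y1, ?_⟩
      rw [div_le_iff₀ (by positivity)] at y2
      have h8 : 0 < c1 * cH := by positivity
      nlinarith
    filter_upwards [Real.tendsto_log_atTop.eventually e1, Filter.eventually_ge_atTop (3 : ℝ),
      (tendsto_rpow_atTop (show (0 : ℝ) < 2 / 3 by norm_num)).eventually_ge_atTop (q : ℝ)]
      with x hx hx3 hxq
    refine ⟨hx3, hx.1, ?_, hx.2⟩
    rw [← Real.rpow_natCast, ← Real.rpow_mul (by linarith)]
    calc (q : ℝ) * x ^ (1 / 6 * ((2 : ℕ) : ℝ)) ≤ x ^ (2 / 3 : ℝ) * x ^ (1 / 6 * ((2 : ℕ) : ℝ)) :=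
          mul_le_mul_of_nonneg_right hxq (Real.rpow_nonneg (by linarith) _)
      _ = x := by
          rw [← Real.rpow_add (by linarith)]
          norm_num
  obtain ⟨xE, hE⟩ := Filter.eventually_atTop.1 hev
  refine ⟨max (max (max xT xS) (max xB xF)) (max xH xE), fun x hx h hh1 hhA => ?_⟩
  simp only [max_le_iff] at hx
  obtain ⟨⟨⟨hxT, hxS⟩, hxB, hxF⟩, hxH, hxE⟩ := hx
  obtain ⟨hx3, hl2, hx6, hfin⟩ := hE x hxE
  obtain ⟨p0, hp0, hBV⟩ := hB x hxB
  have hTH := (hT x hxT).1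
  have hHx := hH x hxH p0 hp0
  set R : ℕ := ⌊x ^ (1 / 6 : ℝ)⌋₊ with hR
  set N : ℕ := ⌊9 * x⌋₊ with hN
  have hx0 : 0 < x := by linarith
  have hl0 : 0 < Real.log x := by linarith
  have hRx : (R : ℝ) ≤ x ^ (1 / 6 : ℝ) := Nat.floor_le (by positivity)
  have hNx : (N : ℝ) ≤ 9 * x := Nat.floor_le (by positivity)
  have hR1 : 1 ≤ R := Nat.le_floor (by
    push_cast
    exact Real.one_le_rpow (by linarith) (by norm_num))
  have hR1' : (1 : ℝ) ≤ R := by exact_mod_cast hR1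
  have hN1 : 1 ≤ N := Nat.le_floor (by push_cast; linarith)
  set T : Finset ℕ := (Icc 1 R).filter (fun r => Squarefree r ∧ r.Coprime q ∧ r.Coprime p0 ∧
      (Real.log x) ^ (3 * A + 1) ≤ r.totient) with hTdef
  have hTm : ∀ r ∈ T, 1 ≤ r ∧ r ≤ R ∧ Squarefree r ∧ r.Coprime q ∧ r.Coprime p0 ∧
      (Real.log x) ^ (3 * A + 1) ≤ r.totient := by
    intro r hr
    rw [hTdef, mem_filter, mem_Icc] at hr
    exact ⟨hr.1.1, hr.1.2, hr.2⟩
  have hφ : ∀ r ∈ T, (0 : ℝ) < r.totient := by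
    intro r hr
    exact_mod_cast Nat.totient_pos.2 (hTm r hr).1
  -- the local variances
  set κ : ℕ → ℂ := fun k => ee (a * (k / q)) - ee (b * (k / q)) with hκ
  set V : ℕ → ℕ → ℝ := fun k r => ∑ s ∈ RR r, ‖Dh h (s / r + k / q)‖ ^ 2 with hV
  have hVlow : ∀ k, ∀ r ∈ T, (h : ℝ) * r.totient / 2 ≤ V k r := by
    intro k r hr
    refine h4 r h (k / q) (hTm r hr).1 hh1 ?_
    have h8 : (2 : ℝ) * h ^ 3 ≤ r.totient := by
      refine le_trans ?_ (hTm r hr).2.2.2.2.2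
      have h9 : (h : ℝ) ^ 3 ≤ ((Real.log x) ^ A) ^ 3 := pow_le_pow_left₀ (Nat.cast_nonneg _) hhA 3
      rw [← pow_mul] at h9
      have h10 : (Real.log x) ^ (3 * A + 1) = (Real.log x) ^ (A * 3) * Real.log x := by
        rw [mul_comm 3 A, pow_succ]
      have h11 : 0 ≤ (Real.log x) ^ (A * 3) := by positivity
      rw [h10]
      nlinarith
    exact_mod_cast h8
  set VV : ℕ → ℝ := fun k => ∑ r ∈ T, V k r / (r.totient : ℝ) ^ 2 with hVV
  have hVVlow : ∀ k, (h : ℝ) / 2 * (cH * ((q.totient : ℝ) / q) * Real.log x) ≤ VV k := by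
    intro k
    calc (h : ℝ) / 2 * (cH * ((q.totient : ℝ) / q) * Real.log x) ≤
          (h : ℝ) / 2 * ∑ r ∈ T, 1 / (r : ℝ) := mul_le_mul_of_nonneg_left hHx (by positivity)
      _ = ∑ r ∈ T, (h : ℝ) / 2 * (1 / (r : ℝ)) := by rw [mul_sum]
      _ ≤ VV k := by
          refine sum_le_sum fun r hr => ?_
          have h8 := hVlow k r hr
          have h9 := hφ r hr
          have h10 : (r.totient : ℝ) ≤ r := by exact_mod_cast Nat.totient_le r
          calc (h : ℝ) / 2 * (1 / (r : ℝ)) ≤ (h : ℝ) / 2 * (1 / (r.totient : ℝ)) := by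
                refine mul_le_mul_of_nonneg_left ?_ (by positivity)
                exact one_div_le_one_div_of_le h9 h10
            _ = ((h : ℝ) * r.totient / 2) / (r.totient : ℝ) ^ 2 := by field_simp
            _ ≤ V k r / (r.totient : ℝ) ^ 2 := div_le_div_of_nonneg_right h8 (by positivity)
  set VT : ℝ := ∑ k ∈ range q, ‖κ k‖ ^ 2 * VV k with hVT
  have hVTlow : h * (cH * q.totient * Real.log x) ≤ VT := by
    calc (h : ℝ) * (cH * q.totient * Real.log x) =
          (∑ k ∈ range q, ‖κ k‖ ^ 2) * ((h : ℝ) / 2 * (cH * ((q.totient : ℝ) / q) * Real.log x)) := by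
          rw [hκ, sum_kappa hq hab]
          field_simp
      _ ≤ VT := by
          rw [hVT, sum_mul]
          exact sum_le_sum fun k _ => mul_le_mul_of_nonneg_left (hVVlow k) (sq_nonneg _)
  have hh1' : (1 : ℝ) ≤ h := by exact_mod_cast hh1
  have hVT0 : 0 < VT := lt_of_lt_of_le (by positivity) hVTlow
  -- the exponential sums of `Fh`
  set G : ℕ → ℕ → ℕ → ℂ := fun k r s => (starRingEnd ℂ) (Dh h (s / r + k / q)) *
    fhat q a b x (s / r + k / q) with hG
  set SF2 : ℝ := ∑ y ∈ Icc 1 N, (Fh q a b x h y) ^ 2 with hSF2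
  have hLS : ∑ k ∈ range q, ∑ r ∈ T, ∑ s ∈ RR r, ‖G k r s‖ ^ 2 ≤
      C * (N + q * (R : ℝ) ^ 2) * SF2 := by
    set Jf : Finset (ℕ × (Σ _ : ℕ, ℕ)) := range q ×ˢ T.sigma (fun r => RR r) with hJf
    have h8 := hL ↥Jf (fun j => (j.1.2.2 : ℝ) / j.1.2.1 + j.1.1 / q) (1 / ((q : ℝ) * (R : ℝ) ^ 2))
      (by positivity) (by
        rw [div_le_one (by positivity)]
        have : (1 : ℝ) ≤ q := by exact_mod_cast hq
        have h9 : (1 : ℝ) ≤ (R : ℝ) ^ 2 := one_le_pow₀ hR1'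
        nlinarith) ?_ N 0 hN1 (fun n => (Fh q a b x h n : ℂ))
    · have h9 : Ioc 0 (0 + N) = Icc 1 N := by
        ext n
        rw [mem_Ioc, mem_Icc]
        omega
      rw [h9] at h8
      have h10 : ∑ n ∈ Icc 1 N, ‖(Fh q a b x h n : ℂ)‖ ^ 2 = SF2 := by
        refine sum_congr rfl fun n _ => ?_
        rw [Complex.norm_real, Real.norm_eq_abs, sq_abs]
      have h11 : (1 : ℝ) / (1 / ((q : ℝ) * (R : ℝ) ^ 2)) = q * (R : ℝ) ^ 2 := by
        rw [one_div_one_div]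
      rw [h10, h11] at h8
      refine le_trans (le_of_eq ?_) h8
      rw [sum_coe_sort Jf (fun j => ‖∑ n ∈ Icc 1 N, (Fh q a b x h n : ℂ) *
        Complex.exp (2 * Real.pi * Complex.I * n * (((j.2.2 : ℝ) / j.2.1 + j.1 / q : ℝ) : ℂ))‖ ^ 2),
        hJf, sum_product]
      refine sum_congr rfl fun k _ => ?_
      rw [sum_sigma]
      refine sum_congr rfl fun r _ => sum_congr rfl fun s _ => ?_
      have h12 := hF x hxF q a b h (s / r + k / q) hhA
      rw [← hN] at h12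
      have h13 : G k r s = ∑ y ∈ Icc 1 N, (Fh q a b x h y : ℂ) * ee (y * (s / r + k / q)) := by
        rw [h12]
      rw [h13]
      congr 2
      refine sum_congr rfl fun y _ => ?_
      congr 1
      unfold ee
      congr 1
      push_cast
      ring
    · rintro ⟨⟨k, r, s⟩, hi⟩ ⟨⟨k', r', s'⟩, hj⟩ hij m
      rw [hJf, mem_product, mem_sigma, mem_range] at hi hj
      simp only at hi hj
      have hr := hTm r hi.2.1
      have hr' := hTm r' hj.2.1
      refine sep_points hq hi.1 hj.1 hr.1 hr'.1 hr.2.1 hr'.2.1 hr.2.2.2.1 hr'.2.2.2.1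
        hi.2.2 hj.2.2 ?_ m
      rintro ⟨e1, e2, e3⟩
      apply hij
      subst e1
      subst e2
      subst e3
      rfl
  -- the dual sum
  set Sk : ℕ → ℂ := fun k => ∑ r ∈ T, (((ArithmeticFunction.moebius r : ℤ) : ℂ) / (r.totient : ℂ)) *
    ∑ s ∈ RR r, ((‖Dh h (s / r + k / q)‖ ^ 2 : ℝ) : ℂ) * fhat q a b x (s / r + k / q) with hSk
  set S : ℂ := ∑ k ∈ range q, (starRingEnd ℂ) (κ k) * Sk k with hSdef
  have hmu : ∀ r ∈ T, ((ArithmeticFunction.moebius r : ℤ) : ℝ) ^ 2 = 1 := by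
    intro r hr
    have := ArithmeticFunction.moebius_sq_eq_one_of_squarefree (hTm r hr).2.2.1
    exact_mod_cast this
  have hmuabs : ∀ r ∈ T, ‖((ArithmeticFunction.moebius r : ℤ) : ℂ)‖ = 1 := by
    intro r hr
    have h8 := hmu r hr
    have h9 : ‖((ArithmeticFunction.moebius r : ℤ) : ℂ)‖ = |((ArithmeticFunction.moebius r : ℤ) : ℝ)| := by
      rw [Complex.norm_intCast]
    rw [h9, ← Real.sqrt_sq_eq_abs, h8, Real.sqrt_one]
  -- Cauchy-Schwarz
  have hCS : ‖S‖ ^ 2 ≤ VT * ∑ k ∈ range q, ∑ r ∈ T, ∑ s ∈ RR r, ‖G k r s‖ ^ 2 := by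
    have h8 : ‖S‖ ≤ ∑ z ∈ range q ×ˢ T.sigma (fun r => RR r),
        (‖κ z.1‖ * (‖Dh h (z.2.2 / z.2.1 + z.1 / q)‖ / (z.2.1.totient : ℝ))) *
        ‖G z.1 z.2.1 z.2.2‖ := by
      rw [hSdef]
      refine (norm_sum_le _ _).trans ?_
      rw [sum_product]
      refine sum_le_sum fun k _ => ?_
      rw [norm_mul, Complex.norm_conj, hSk]
      simp only
      refine (mul_le_mul_of_nonneg_left (norm_sum_le _ _) (norm_nonneg _)).trans ?_
      rw [sum_sigma, mul_sum]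
      refine sum_le_sum fun r hr => ?_
      rw [norm_mul, norm_div, hmuabs r hr, Complex.norm_natCast]
      refine (mul_le_mul_of_nonneg_left (mul_le_mul_of_nonneg_left (norm_sum_le _ _)
        (by positivity)) (norm_nonneg _)).trans ?_
      rw [mul_sum, mul_sum]
      refine sum_le_sum fun s _ => ?_
      rw [norm_mul, Complex.norm_real, Real.norm_of_nonneg (sq_nonneg _), hG]
      simp only
      rw [norm_mul, Complex.norm_conj]
      apply le_of_eq
      ring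
    have h9 := Finset.sum_mul_sq_le_sq_mul_sq (range q ×ˢ T.sigma (fun r => RR r))
      (fun z => ‖κ z.1‖ * (‖Dh h (z.2.2 / z.2.1 + z.1 / q)‖ / (z.2.1.totient : ℝ)))
      (fun z => ‖G z.1 z.2.1 z.2.2‖)
    have h10 : ∑ z ∈ range q ×ˢ T.sigma (fun r => RR r),
        (‖κ z.1‖ * (‖Dh h (z.2.2 / z.2.1 + z.1 / q)‖ / (z.2.1.totient : ℝ))) ^ 2 = VT := by
      rw [sum_product, hVT]
      refine sum_congr rfl fun k _ => ?_
      rw [sum_sigma, hVV]
      simp only
      rw [mul_sum]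
      refine sum_congr rfl fun r _ => ?_
      rw [hV]
      simp only
      rw [sum_div, mul_sum]
      refine sum_congr rfl fun s _ => ?_
      rw [mul_pow, div_pow]
    have h11 : ∑ z ∈ range q ×ˢ T.sigma (fun r => RR r), ‖G z.1 z.2.1 z.2.2‖ ^ 2 =
        ∑ k ∈ range q, ∑ r ∈ T, ∑ s ∈ RR r, ‖G k r s‖ ^ 2 := by
      rw [sum_product]
      refine sum_congr rfl fun k _ => ?_
      exact sum_sigma T (fun r => RR r) (fun z => ‖G k z.1 z.2‖ ^ 2)
    rw [h10, h11] at h9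
    exact (pow_le_pow_left₀ (norm_nonneg _) h8 2).trans h9
  -- main term of the dual sum
  have hκle : ∀ k, ‖κ k‖ ≤ 2 := by
    intro k
    refine (norm_sub_le _ _).trans ?_
    rw [norm_ee, norm_ee]
    norm_num
  have hTH1 : c1 * x ≤ TH 1 x := by
    have : c1 * (((1 : ℕ) : ℝ) * x) = c1 * x := by norm_num
    linarith
  have hTH0 : 0 < TH 1 x := lt_of_lt_of_le (by positivity) hTH1
  have hmain : (TH 1 x / q.totient) * VT -
      2 * q * (2 * (h : ℝ) ^ 2 * (x / (Real.log x) ^ (2 * A + 1))) ≤ ‖S‖ := by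
    have h8 : ‖S - (((TH 1 x / q.totient) * VT : ℝ) : ℂ)‖ ≤
        2 * q * (2 * (h : ℝ) ^ 2 * (x / (Real.log x) ^ (2 * A + 1))) := by
      have h9 : S - (((TH 1 x / q.totient) * VT : ℝ) : ℂ) =
          ∑ k ∈ range q, (starRingEnd ℂ) (κ k) * (Sk k - κ k * ((TH 1 x / q.totient * VV k : ℝ) : ℂ)) := by
        rw [hSdef, hVT, mul_sum, Complex.ofReal_sum, ← sum_sub_distrib]
        refine sum_congr rfl fun k _ => ?_
        rw [mul_sub]
        congr 1
        have h10 : (starRingEnd ℂ) (κ k) * κ k = ((‖κ k‖ ^ 2 : ℝ) : ℂ) := by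
          rw [mul_comm, Complex.mul_conj, Complex.normSq_eq_norm_sq]
        have h11 : (((TH 1 x / q.totient) * (‖κ k‖ ^ 2 * VV k) : ℝ) : ℂ) =
            ((‖κ k‖ ^ 2 : ℝ) : ℂ) * ((TH 1 x / q.totient * VV k : ℝ) : ℂ) := by
          push_cast
          ring
        rw [h11, ← h10]
        ring
      rw [h9]
      refine (norm_sum_le _ _).trans ?_
      have h10 : ∀ k ∈ range q, ‖(starRingEnd ℂ) (κ k) *
          (Sk k - κ k * ((TH 1 x / q.totient * VV k : ℝ) : ℂ))‖ ≤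
          2 * (2 * (h : ℝ) ^ 2 * (x / (Real.log x) ^ (2 * A + 1))) := by
        intro k _
        rw [norm_mul, Complex.norm_conj]
        refine mul_le_mul (hκle k) ?_ (norm_nonneg _) (by norm_num)
        refine Sk_main hq ?_ ?_ hBV
        · intro r hr
          obtain ⟨hr1, hrR, hrs, hrq, -, -⟩ := hTm r hr
          have hrx : (r : ℝ) ≤ x ^ (1 / 6 : ℝ) := le_trans (by exact_mod_cast hrR) hRx
          exact hS x hxS q a b r h k hq ha hb hrs hrq hrx
        · intro r hr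
          obtain ⟨hr1, hrR, hrs, hrq, hrp, -⟩ := hTm r hr
          exact ⟨hr1, hrR, hrs, hrp⟩
      refine (sum_le_sum h10).trans ?_
      rw [sum_const, card_range, nsmul_eq_mul]
      apply le_of_eq
      ring
    have h10 := norm_sub_norm_le ((((TH 1 x / q.totient) * VT : ℝ)) : ℂ) S
    have h11 : ‖((((TH 1 x / q.totient) * VT : ℝ)) : ℂ)‖ = (TH 1 x / q.totient) * VT := by
      rw [Complex.norm_real, Real.norm_of_nonneg (by positivity)]
    rw [← norm_sub_rev, h11] at h10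
    linarith
  -- the end
  have herr : 2 * q * (2 * (h : ℝ) ^ 2 * (x / (Real.log x) ^ (2 * A + 1))) ≤
      1 / 2 * ((TH 1 x / q.totient) * VT) := by
    have h8 : (h : ℝ) ^ 2 ≤ (Real.log x) ^ (2 * A) := by
      have := pow_le_pow_left₀ (Nat.cast_nonneg _) hhA 2
      rwa [← pow_mul, mul_comm A 2] at this
    have h9 : 2 * (h : ℝ) ^ 2 * (x / (Real.log x) ^ (2 * A + 1)) ≤ 2 * (x / Real.log x) := by
      have h10 : (h : ℝ) ^ 2 * (x / (Real.log x) ^ (2 * A + 1)) ≤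
          (Real.log x) ^ (2 * A) * (x / (Real.log x) ^ (2 * A + 1)) :=
        mul_le_mul_of_nonneg_right h8 (by positivity)
      have h11 : (Real.log x) ^ (2 * A) * (x / (Real.log x) ^ (2 * A + 1)) = x / Real.log x := by
        rw [pow_succ]
        field_simp
      linarith
    have h10 : (c1 * x / q.totient) * (cH * q.totient * Real.log x) ≤ (TH 1 x / q.totient) * VT := by
      refine mul_le_mul ?_ ?_ (by positivity) (by positivity)
      · exact div_le_div_of_nonneg_right hTH1 hφq.le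
      · refine le_trans ?_ hVTlow
        have h11 : 0 ≤ cH * q.totient * Real.log x := by positivity
        nlinarith
    have h11 : 2 * q * (2 * (x / Real.log x)) ≤
        1 / 2 * ((c1 * x / q.totient) * (cH * q.totient * Real.log x)) := by
      have h12 : 2 * (q : ℝ) * (2 * (x / Real.log x)) = x / Real.log x * (8 * q) / 2 := by ring
      have h13 : 1 / 2 * ((c1 * x / q.totient) * (cH * q.totient * Real.log x)) =
          x / Real.log x * (c1 * cH * (Real.log x) ^ 2) / 2 := by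
        field_simp
      rw [h12, h13]
      refine div_le_div_of_nonneg_right ?_ (by norm_num)
      exact mul_le_mul_of_nonneg_left hfin (by positivity)
    have h12 := mul_le_mul_of_nonneg_left h9 (show (0 : ℝ) ≤ 2 * q by positivity)
    linarith
  set M : ℝ := TH 1 x / q.totient with hM
  have hM0 : 0 < M := by positivity
  have hS2 : 1 / 2 * (M * VT) ≤ ‖S‖ := by linarith
  have hNR : (N : ℝ) + q * (R : ℝ) ^ 2 ≤ 10 * x := by
    have h8 : (R : ℝ) ^ 2 ≤ (x ^ (1 / 6 : ℝ)) ^ 2 := pow_le_pow_left₀ (Nat.cast_nonneg _) hRx 2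
    have h9 := mul_le_mul_of_nonneg_left h8 hq0.le
    linarith
  have hSF0 : 0 ≤ SF2 := sum_nonneg fun _ _ => sq_nonneg _
  have h8 : (1 / 2 * (M * VT)) ^ 2 ≤ VT * (C * (10 * x) * SF2) := by
    calc (1 / 2 * (M * VT)) ^ 2 ≤ ‖S‖ ^ 2 := pow_le_pow_left₀ (by positivity) hS2 2
      _ ≤ VT * ∑ k ∈ range q, ∑ r ∈ T, ∑ s ∈ RR r, ‖G k r s‖ ^ 2 := hCS
      _ ≤ VT * (C * (N + q * (R : ℝ) ^ 2) * SF2) := mul_le_mul_of_nonneg_left hLS hVT0.le
      _ ≤ _ := by
          refine mul_le_mul_of_nonneg_left ?_ hVT0.le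
          refine mul_le_mul_of_nonneg_right ?_ hSF0
          exact mul_le_mul_of_nonneg_left hNR hC.le
  have h9 : M ^ 2 * VT / 4 ≤ C * (10 * x) * SF2 := by
    have h10 : (1 / 2 * (M * VT)) ^ 2 = VT * (M ^ 2 * VT / 4) := by ring
    rw [h10] at h8
    exact le_of_mul_le_mul_left h8 hVT0
  have h10 : (c1 * x / q.totient) ^ 2 * (h * (cH * q.totient * Real.log x)) / 4 ≤
      M ^ 2 * VT / 4 := by
    refine div_le_div_of_nonneg_right ?_ (by norm_num)
    refine mul_le_mul ?_ hVTlow (by positivity) (by positivity)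
    refine pow_le_pow_left₀ (by positivity) ?_ 2
    exact div_le_div_of_nonneg_right hTH1 hφq.le
  have h11 := h10.trans h9
  have h12 : c1 ^ 2 * cH / (40 * C) * x * h * Real.log x / q.totient =
      ((c1 * x / q.totient) ^ 2 * (h * (cH * q.totient * Real.log x)) / 4) / (C * (10 * x)) := by
    field_simp
    norm_num
  rw [h12, div_le_iff₀ (by positivity)]
  linarith

end TIE
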