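import Pool.Agent.H70.TIE.All
import Pool.Agent.H70.TIE.S1k
import Pool.Agent.H70.TIE.HARMu
import Pool.Agent.H70.TIE.VARu
import Pool.Agent.H70.TIE.TIEu
import Pool.Agent.H96.TIE.KTu
import Pool.Agent.H96.TIE.AVGu
import Pool.Agent.H96.TIE.JAVu
import Pool.Agent.H96.TIE.MOMu

/-! # Project TIE, version 2: assembly -/

set_option autoImplicit false

namespace TIE
open MTA

theorem all_AVGu : S_AVGu := AVGu

theorem all_JAVu : S_JAVu := JAVu all_AVGu

theorem all_KTu : S_KTu := KTu all_ALS all_LJ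

theorem all_MOMu : S_MOMu := MOMu all_KTu all_JAVu

theorem all_S1k : S_S1k := S1k all_RAM all_RSUM

theorem all_HARMu : S_HARMu := HARMu all_MSUM all_COPR

theorem all_VARu : S_VARu := VARu all_LSG all_CHE all_BVTx all_VR all_FD all_S1k all_HARMu

theorem all_TIEu : S_TIEu := TIEuthm all_VARu all_MOMu all_LIPx

end TIE
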