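import Pool.Agent.H70.TIE.Stmts
import Pool.Agent.H20.MT.Rho

/-!
# Project TIE: basic facts on `ee`, `Dh` and the weight
-/

set_option autoImplicit false

namespace TIE
open Finset MTA

theorem ee_addB (s t : ℝ) : ee (s + t) = ee s * ee t := by
  unfold ee
  rw [← Complex.exp_add]
  congr 1
  push_cast
  ring

theorem ee_zero : ee 0 = 1 := by
  unfold ee
  simp

theorem ee_neg (t : ℝ) : ee (-t) = (starRingEnd ℂ) (ee t) := by
  unfold ee
  rw [← Complex.exp_conj]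
  congr 1
  simp only [map_mul, Complex.conj_ofReal, Complex.conj_I, map_ofNat, Complex.ofReal_neg]
  ring

theorem norm_ee (t : ℝ) : ‖ee t‖ = 1 := by
  unfold ee
  rw [Complex.norm_exp]
  simp

theorem ee_intCast (m : ℤ) : ee m = 1 := by
  unfold ee
  rw [Complex.exp_eq_one_iff]
  exact ⟨m, by push_cast; ring⟩

theorem ee_congr {s t : ℝ} {m : ℤ} (h : s = t + m) : ee s = ee t := by
  rw [h, ee_addB, ee_intCast, mul_one]

/-- `ee (n s / r)` depends only on `n` modulo `r` -/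
theorem ee_modEq {n u r : ℕ} (hr : 1 ≤ r) (h : n ≡ u [MOD r]) (s : ℕ) :
    ee (n * (s / r)) = ee (u * (s / r)) := by
  obtain ⟨m, hm⟩ := (Nat.modEq_iff_dvd.1 h)
  have hr' : (r : ℝ) ≠ 0 := by
    have : (0 : ℝ) < r := by exact_mod_cast hr
    exact this.ne'
  refine ee_congr (m := -(m * s)) ?_
  have h2 : (u : ℝ) - n = r * m := by exact_mod_cast hm
  push_cast
  have h3 : (n : ℝ) = u - r * m := by linarith
  rw [h3]
  field_simp
  ring

theorem normSq_Dh (h : ℕ) (t : ℝ) : ((‖Dh h t‖ ^ 2 : ℝ) : ℂ) =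
    ∑ j ∈ Icc 1 h, ∑ k ∈ Icc 1 h, ee (((j : ℝ) - k) * t) := by
  have h1 : ((‖Dh h t‖ ^ 2 : ℝ) : ℂ) = Dh h t * (starRingEnd ℂ) (Dh h t) := by
    rw [Complex.mul_conj, Complex.normSq_eq_norm_sq]
  rw [h1]
  unfold Dh
  rw [map_sum, sum_mul_sum]
  refine sum_congr rfl fun j _ => sum_congr rfl fun k _ => ?_
  rw [← ee_neg, ← ee_addB]
  congr 1
  ring

/-- the weight at a prime -/
noncomputable def W (x : ℝ) (n : ℕ) : ℝ :=
  if n.Prime then Real.log n * rho (Real.log (((n : ℝ) - 1) / x)) else 0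

theorem fw_eqB (q a b : ℕ) (x : ℝ) (n : ℕ) :
    fw q a b x n = ((if n ≡ a [MOD q] then 1 else 0) - (if n ≡ b [MOD q] then 1 else 0)) * W x n := rfl

theorem exp_two_le : Real.exp 2 ≤ 8 := by
  have h1 : Real.exp 2 = Real.exp 1 * Real.exp 1 := by
    rw [← Real.exp_add]
    norm_num
  have h2 := Real.exp_one_lt_d9
  have h3 := Real.exp_pos 1
  rw [h1]
  nlinarith

theorem W_large {x : ℝ} {n : ℕ} (hx : 1 ≤ x) (hn : 8 * x + 1 ≤ n) : W x n = 0 := by
  unfold W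
  split_ifs with hp
  · have h1 : 2 ≤ Real.log (((n : ℝ) - 1) / x) := by
      rw [Real.le_log_iff_exp_le (div_pos (by linarith) (by linarith)), le_div_iff₀ (by linarith)]
      have := exp_two_le
      nlinarith
    rw [rho_zero (by rw [abs_of_nonneg (by linarith)]; exact h1), mul_zero]
  · rfl

theorem W_small {x : ℝ} {n : ℕ} (hx : 1 ≤ x) (hn : (n : ℝ) ≤ x / 8) : W x n = 0 := by
  unfold W
  split_ifs with hp
  · have hn2 : (2 : ℝ) ≤ n := by exact_mod_cast hp.two_le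
    have h1 : Real.log (((n : ℝ) - 1) / x) ≤ -2 := by
      rw [Real.log_le_iff_le_exp (div_pos (by linarith) (by linarith)), div_le_iff₀ (by linarith),
        Real.exp_neg]
      have h2 := exp_two_le
      have h3 : (8 : ℝ)⁻¹ ≤ (Real.exp 2)⁻¹ := inv_anti₀ (Real.exp_pos 2) h2
      nlinarith
    rw [rho_zero (by rw [abs_of_nonpos (by linarith)]; linarith), mul_zero]
  · rfl

/-- `THa` as a sum over the common range -/
theorem THa_eq {x : ℝ} (hx : 3 ≤ x) (m c : ℕ) :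
    THa 1 x m c = ∑ n ∈ (Icc 1 ⌊9 * x⌋₊).filter (fun n => n ≡ c [MOD m]), W x n := by
  have h1 : ∑ n ∈ (Icc 1 ⌊9 * x⌋₊).filter (fun n => n ≡ c [MOD m]), W x n =
      ∑ n ∈ (Icc 2 (⌊8 * ((1 : ℕ) : ℝ) * x⌋₊ + 1)).filter (fun p => p.Prime ∧ p ≡ c [MOD m]), W x n := by
    symm
    apply sum_subset_zero_on_sdiff
    · intro n hn
      rw [mem_filter, mem_Icc] at hn ⊢
      refine ⟨⟨by omega, Nat.le_floor ?_⟩, hn.2.2⟩
      have h2 : (n : ℝ) ≤ ⌊8 * ((1 : ℕ) : ℝ) * x⌋₊ + 1 := by exact_mod_cast hn.1.2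
      have h3 : ((⌊8 * ((1 : ℕ) : ℝ) * x⌋₊ : ℕ) : ℝ) ≤ 8 * ((1 : ℕ) : ℝ) * x :=
        Nat.floor_le (by positivity)
      have h4 : 8 * ((1 : ℕ) : ℝ) * x = 8 * x := by norm_num
      linarith
    · intro n hn
      rw [mem_sdiff, mem_filter, mem_filter, mem_Icc, mem_Icc] at hn
      obtain ⟨⟨⟨hn1, -⟩, hn3⟩, hn4⟩ := hn
      by_cases hp : n.Prime
      · have h4 : ¬ n ≤ ⌊8 * ((1 : ℕ) : ℝ) * x⌋₊ + 1 := fun h => hn4 ⟨⟨hp.two_le, h⟩, hp, hn3⟩
        refine W_large (by linarith) ?_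
        have h5 : 8 * ((1 : ℕ) : ℝ) * x < ⌊8 * ((1 : ℕ) : ℝ) * x⌋₊ + 1 := Nat.lt_floor_add_one _
        have h6 : (⌊8 * ((1 : ℕ) : ℝ) * x⌋₊ : ℝ) + 2 ≤ n := by
          exact_mod_cast (by omega : ⌊8 * ((1 : ℕ) : ℝ) * x⌋₊ + 2 ≤ n)
        have h7 : 8 * ((1 : ℕ) : ℝ) * x = 8 * x := by norm_num
        linarith
      · unfold W
        rw [if_neg hp]
    · exact fun _ _ => rfl
  rw [h1]
  unfold THa
  refine sum_congr rfl fun n hn => ?_
  rw [mem_filter] at hn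
  unfold W
  rw [if_pos hn.2.1]
  simp

end TIE
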