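import Pool.Agent.H20.MT.Stmts

/-!
# Project TIE (MP_8d92d6_nt): statements of the modules

Paper proof: `/team-store/HW_MP_8d92d6_nt.md`. Notation `rho`, `TH`, `THa`, `EE`, `Emax`, `Msum`, `SF`,
`Lj`, `LL`, `psiR` from `Pool.Agent.H20.MT.Defs`; the statements `MTA.S_*` are proved in
`Pool.Agent.H20.MTA.All` (`MTA.all_*`).
-/

set_option autoImplicit false

namespace TIE
open Finset MTA

/-! ## Part 1: Bombieri–Vinogradov for every large `x` -/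

/-- as `MTA.S_LBD`, with a hypothesis on the one character instead of `Good` -/
def S_LBDx : Prop := ∀ B : ℕ, ∃ c x0 : ℝ, 0 < c ∧ ∀ x : ℝ, x0 ≤ x →
  ∀ (r : ℕ) [NeZero r], (r : ℝ) ≤ (Real.log x) ^ B → ∀ χ : DirichletCharacter ℂ r, χ.IsPrimitive →
  χ ≠ 1 → (χ ^ 2 = 1 → (Real.log x) ^ (-(1 / 8) : ℝ) ≤ ‖χ.LFunction 1‖) →
  ∀ t : ℝ, c * (Real.log x) ^ (-(1 / 4) : ℝ) / (LL r t) ^ 8 ≤
    ‖Lj χ 0 ((1 + 1 / Real.log x : ℝ) + t * Complex.I)‖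

/-- as `MTA.S_SW`, with a hypothesis on the one character instead of `Good` -/
def S_SWx : Prop := ∀ A B c : ℕ, 1 ≤ c → ∃ x0 : ℝ, ∀ x : ℝ, x0 ≤ x →
  ∀ (r : ℕ) [NeZero r], (r : ℝ) ≤ (Real.log x) ^ B → ∀ χ : DirichletCharacter ℂ r, χ.IsPrimitive →
  χ ≠ 1 → (χ ^ 2 = 1 → (Real.log x) ^ (-(1 / 8) : ℝ) ≤ ‖χ.LFunction 1‖) →
  ‖psiR (c * x) χ‖ ≤ x / (Real.log x) ^ A

/-- `r` is the conductor of an exceptional character for `x` -/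
def Bad (B : ℕ) (x : ℝ) (r : ℕ) : Prop := ∃ _ : NeZero r, (r : ℝ) ≤ (Real.log x) ^ B ∧
  ∃ χ : DirichletCharacter ℂ r, χ.IsPrimitive ∧ χ ≠ 1 ∧ χ ^ 2 = 1 ∧
    ‖χ.LFunction 1‖ < (Real.log x) ^ (-(1 / 8) : ℝ)

/-- there is at most one exceptional conductor -/
def S_ONE : Prop := ∀ B : ℕ, ∃ x0 : ℝ, ∀ x : ℝ, x0 ≤ x → ∀ r0 r1 : ℕ, Bad B x r0 → Bad B x r1 →
  r0 = r1

/-- the exceptional conductor does not divide a fixed integer -/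
def S_FIX : Prop := ∀ B W : ℕ, 1 ≤ W → ∃ x0 : ℝ, ∀ x : ℝ, x0 ≤ x → ∀ r0 : ℕ, Bad B x r0 → ¬ r0 ∣ W

def S_BVx : Prop := ∀ A c : ℕ, 1 ≤ c → ∃ (B : ℕ) (x0 : ℝ), ∀ x : ℝ, x0 ≤ x → ∀ r0 : ℕ,
  (∀ r, Bad B x r → r = r0) →
  ∑ q ∈ (Icc 1 ⌊x ^ (1 / 5 : ℝ)⌋₊).filter (fun q => ¬ r0 ∣ q), Emax c x q ≤ x / (Real.log x) ^ A

/-- Bombieri–Vinogradov with divisor weights, all large `x`, moduli prime to one prime `p0` -/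
def S_BVTx : Prop := ∀ A K W : ℕ, 1 ≤ W → ∃ x0 : ℝ, ∀ x : ℝ, x0 ≤ x → ∃ p0 : ℕ, p0.Prime ∧
  ∑ q ∈ (Icc 1 ⌊x ^ (1 / 6 : ℝ)⌋₊).filter (fun q => Squarefree q ∧ q.Coprime p0),
    (K : ℝ) ^ q.primeFactors.card * Emax 1 x (W * q) ≤ x / (Real.log x) ^ A

/-! ## Part 2: moments of the number of primes in short intervals -/

/-- the arithmetic large sieve (Montgomery) -/
def S_ALS : Prop := ∃ C : ℝ, 0 < C ∧ ∀ N Q : ℕ, 1 ≤ N → 1 ≤ Q → ∀ S : Finset ℕ, S ⊆ Icc 1 N →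
  ∀ w : ℕ → ℕ, (∀ p : ℕ, p.Prime → p ≤ Q → w p < p ∧ (S.image (fun n => n % p)).card + w p ≤ p) →
  (S.card : ℝ) * ∑ r ∈ (Icc 1 Q).filter Squarefree,
    ∏ p ∈ r.primeFactors, ((w p : ℝ) / ((p : ℝ) - w p)) ≤ C * (N + (Q : ℝ) ^ 2)

/-- lower bound for the sieve sum -/
def S_LJ : Prop := ∀ K : ℕ, 1 ≤ K → ∃ c : ℝ, 0 < c ∧ ∃ Q0 : ℕ, ∀ Q D : ℕ, Q0 ≤ Q → 1 ≤ D →
  c * ((D.totient : ℝ) / D * Real.log Q) ^ K ≤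
    ∑ r ∈ (Icc 1 Q).filter (fun r => Squarefree r ∧ r.Coprime ((K ^ 2).factorial * D)),
      (K : ℝ) ^ r.primeFactors.card / r

/-- product of the differences -/
def DJ (J : Finset ℕ) : ℕ := ∏ i ∈ J, ∏ j ∈ J.filter (fun j => i < j), (j - i)

/-- upper bound sieve for `K`-tuples -/
def S_KT : Prop := ∀ K : ℕ, 1 ≤ K → ∃ C : ℝ, 0 < C ∧ ∃ N0 : ℕ, ∀ N : ℕ, N0 ≤ N →
  ∀ J : Finset ℕ, J.card = K →
  (((Icc 1 N).filter (fun y => ∀ j ∈ J, (y + j).Prime)).card : ℝ) ≤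
    C * N / (Real.log N) ^ K * ((DJ J : ℝ) / (DJ J).totient) ^ K

/-- averages of powers of `d / φ(d)` -/
def S_AVG : Prop := ∀ K : ℕ, ∃ C : ℝ, 0 < C ∧ ∀ h : ℕ, 1 ≤ h →
  ∑ d ∈ Icc 1 h, ((d : ℝ) / d.totient) ^ K ≤ C * h

/-- average over `K`-subsets -/
def S_JAV : Prop := ∀ K : ℕ, 1 ≤ K → ∃ C : ℝ, 0 < C ∧ ∀ h : ℕ, 1 ≤ h →
  ∑ J ∈ (Icc 1 h).powersetCard K, ((DJ J : ℝ) / (DJ J).totient) ^ K ≤ C * (h : ℝ) ^ K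

/-- number of primes in `(y, y+h]` -/
def Xt (h y : ℕ) : ℕ := ((Ioc y (y + h)).filter Nat.Prime).card

/-- moments -/
def S_MOM : Prop := ∀ K : ℕ, 1 ≤ K → ∃ C : ℝ, 0 < C ∧ ∃ N0 : ℕ, ∀ N h : ℕ, N0 ≤ N →
  Real.log N ≤ h → ∑ y ∈ Icc 1 N, (Xt h y : ℝ) ^ K ≤ C * N * (h / Real.log N) ^ K

/-! ## Part 3: lower bound for the variance -/

/-- `e(t)` -/
noncomputable def ee (t : ℝ) : ℂ := Complex.exp (2 * Real.pi * Complex.I * t)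

/-- reduced residues -/
def RR (r : ℕ) : Finset ℕ := (range r).filter (fun b => b.Coprime r)

/-- Ramanujan sum -/
noncomputable def cr (r : ℕ) (k : ℤ) : ℂ := ∑ s ∈ RR r, ee (s * k / r)

def S_RAM : Prop := ∀ (r : ℕ) (k : ℤ), 1 ≤ r →
  cr r k = ∑ d ∈ r.divisors, if (d : ℤ) ∣ k then ((ArithmeticFunction.moebius (r / d) : ℤ) : ℂ) * d else 0

/-- geometric sum -/
noncomputable def Dh (h : ℕ) (t : ℝ) : ℂ := ∑ j ∈ Icc 1 h, ee (j * t)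

/-- lower bound for the local variance -/
def S_VR : Prop := ∀ (r h : ℕ) (t : ℝ), 1 ≤ r → 1 ≤ h → 2 * h ^ 3 ≤ r.totient →
  (h : ℝ) * r.totient / 2 ≤ ∑ s ∈ RR r, ‖Dh h (s / r + t)‖ ^ 2

/-- sums of Ramanujan sums -/
def S_RSUM : Prop := ∀ (r : ℕ) (k : ℤ), 1 ≤ r →
  ∑ u ∈ range r, ‖cr r (u + k)‖ ≤ r * r.divisors.card

/-- the weighted difference of the indicators of the primes of two classes -/
noncomputable def fw (q a b : ℕ) (x : ℝ) (n : ℕ) : ℝ :=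
  ((if n ≡ a [MOD q] then 1 else 0) - (if n ≡ b [MOD q] then 1 else 0)) *
    (if n.Prime then Real.log n * rho (Real.log (((n : ℝ) - 1) / x)) else 0)

/-- its sum over `(y, y+h]` -/
noncomputable def Fh (q a b : ℕ) (x : ℝ) (h y : ℕ) : ℝ := ∑ n ∈ Ioc y (y + h), fw q a b x n

/-- exponential sum -/
noncomputable def fhat (q a b : ℕ) (x : ℝ) (t : ℝ) : ℂ :=
  ∑ n ∈ Icc 1 ⌊9 * x⌋₊, (fw q a b x n : ℂ) * ee (n * t)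

/-- the exponential sum of `Fh` -/
def S_FD : Prop := ∀ A : ℕ, ∃ x0 : ℝ, ∀ x : ℝ, x0 ≤ x → ∀ (q a b h : ℕ) (t : ℝ),
  (h : ℝ) ≤ (Real.log x) ^ A →
  ∑ y ∈ Icc 1 ⌊9 * x⌋₊, (Fh q a b x h y : ℂ) * ee (y * t) =
    (starRingEnd ℂ) (Dh h t) * fhat q a b x t

/-- main term and error of the weighted sum of `fhat` over the fractions with denominator `r` -/
def S_S1 : Prop := ∃ x0 : ℝ, ∀ x : ℝ, x0 ≤ x → ∀ q a b r h : ℕ, 1 ≤ q → a.Coprime q → b.Coprime q →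
  Squarefree r → r.Coprime q → (r : ℝ) ≤ x ^ (1 / 6 : ℝ) →
  ‖(∑ s ∈ RR r, ((‖Dh h (s / r + 1 / q)‖ ^ 2 : ℝ) : ℂ) * fhat q a b x (s / r + 1 / q)) -
      (ee (a / q) - ee (b / q)) * ((TH 1 x * (ArithmeticFunction.moebius r : ℤ) /
        (q.totient * r.totient) * ∑ s ∈ RR r, ‖Dh h (s / r + 1 / q)‖ ^ 2 : ℝ) : ℂ)‖ ≤
    2 * (h : ℝ) ^ 2 * (r * r.divisors.card) * Emax 1 x (q * r)

/-- lower bound for the harmonic sum -/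
def S_HARM : Prop := ∀ q : ℕ, 1 ≤ q → ∃ c : ℝ, 0 < c ∧ ∀ A : ℕ, ∃ x0 : ℝ, ∀ x : ℝ, x0 ≤ x →
  ∀ p0 : ℕ, p0.Prime → c * Real.log x ≤
    ∑ r ∈ (Icc 1 ⌊x ^ (1 / 6 : ℝ)⌋₊).filter (fun r => Squarefree r ∧ r.Coprime q ∧ r.Coprime p0 ∧
      (Real.log x) ^ A ≤ r.totient), 1 / (r : ℝ)

/-- lower bound for the variance -/
def S_VAR : Prop := ∀ q a b : ℕ, 1 ≤ q → a.Coprime q → b.Coprime q → ¬ a ≡ b [MOD q] →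
  ∃ c : ℝ, 0 < c ∧ ∀ A : ℕ, ∃ x0 : ℝ, ∀ x : ℝ, x0 ≤ x → ∀ h : ℕ, 1 ≤ h →
  (h : ℝ) ≤ (Real.log x) ^ A →
  c * x * h * Real.log x ≤ ∑ y ∈ Icc 1 ⌊9 * x⌋₊, (Fh q a b x h y) ^ 2

/-! ## Part 4: the end -/

/-- `π(n;q,a) - π(n;q,b)` -/
def Dn (q a b n : ℕ) : ℤ :=
  (((Icc 1 n).filter (fun p => p.Prime ∧ p ≡ a [MOD q])).card : ℤ) -
    (((Icc 1 n).filter (fun p => p.Prime ∧ p ≡ b [MOD q])).card : ℤ)

/-- removal of the weights -/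
def S_LIP : Prop := ∀ A : ℕ, ∃ x0 : ℝ, ∀ x : ℝ, x0 ≤ x → ∀ q a b h y : ℕ, 1 ≤ h →
  (h : ℝ) ≤ (Real.log x) ^ A → y ≤ 9 * x →
  |Fh q a b x h y| ≤ 2 * Real.log x * |((Dn q a b (y + h) - Dn q a b y : ℤ) : ℝ)| + 1

/-- the theorem -/
def S_TIE : Prop := ∀ q a b : ℕ, 1 ≤ q → a.Coprime q → b.Coprime q → ¬ a ≡ b [MOD q] →
  ∀ ε : ℝ, 0 < ε → ∃ c : ℝ, 0 < c ∧ ∀ A : ℕ, ∃ N0 : ℕ, ∀ N m : ℕ, N0 ≤ N → 1 ≤ m →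
  (m : ℝ) ≤ (Real.log N) ^ A →
  c * N / (m : ℝ) ^ (2 + ε) ≤ (((Icc 1 N).filter (fun n => (m : ℤ) ≤ |Dn q a b n|)).card : ℝ)

end TIE
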